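import Mathlib

/-! Total variation, perimeter, BV-extension sets, PI-spaces and quasiminimal sets. -/

namespace Pool.Agent.Lib.MP_2a341d_an

open MeasureTheory Metric Set Filter Topology
open scoped ENNReal NNReal

variable {X : Type*} [MetricSpace X]

/-- The Lipschitz constant of the restriction of `f` to `S`. -/
noncomputable def lipOn (f : X → ℝ) (S : Set X) : ℝ≥0∞ :=
  ⨅ (K : ℝ≥0) (_ : LipschitzOnWith K f S), (K : ℝ≥0∞)

/-- The asymptotic Lipschitz constant. -/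
noncomputable def lipa (f : X → ℝ) (x : X) : ℝ≥0∞ :=
  ⨅ (r : ℝ) (_ : 0 < r), lipOn f (ball x r)

/-- `S` is compactly contained in `T`. -/
def CptIn (S T : Set X) : Prop := IsCompact (closure S) ∧ closure S ⊆ T

variable [MeasurableSpace X]

/-- Convergence of `g n` to `f` in the local `L¹` sense on `A`. -/
def L1LocTendsto (m : Measure X) (A : Set X) (g : ℕ → X → ℝ) (f : X → ℝ) : Prop :=
  ∀ x ∈ A, ∃ U ∈ 𝓝 x, Tendsto (fun n => ∫⁻ y in U ∩ A, ‖g n y - f y‖ₑ ∂m) atTop (𝓝 0)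

/-- The total variation of `f` on an open set `A`. -/
noncomputable def tvOpen (m : Measure X) (f : X → ℝ) (A : Set X) : ℝ≥0∞ :=
  ⨅ (g : ℕ → X → ℝ) (_ : ∀ n, LocallyLipschitzOn A (g n)) (_ : L1LocTendsto m A g f),
    liminf (fun n => ∫⁻ x in A, lipa (g n) x ∂m) atTop

/-- The total variation of `f` on a Borel set `B`. -/
noncomputable def tv (m : Measure X) (f : X → ℝ) (B : Set X) : ℝ≥0∞ :=
  ⨅ (A : Set X) (_ : IsOpen A) (_ : B ⊆ A), tvOpen m f A

/-- Membership in `BV(B)`. -/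
def MemBV (m : Measure X) (B : Set X) (f : X → ℝ) : Prop :=
  Integrable f (m.restrict B) ∧ tv (m.restrict B) f B < ∞

/-- The norm of `BV(B)`. -/
noncomputable def bvNorm (m : Measure X) (B : Set X) (f : X → ℝ) : ℝ≥0∞ :=
  ∫⁻ x in B, ‖f x‖ₑ ∂m + tv (m.restrict B) f B

/-- `E` is a `BV`-extension set. -/
def IsBVExtensionSet (m : Measure X) (E : Set X) : Prop :=
  MeasurableSet E ∧ ∃ C : ℝ≥0, ∀ f : X → ℝ, MemBV m E f →
    ∃ F : X → ℝ, MemBV m univ F ∧ F =ᵐ[m.restrict E] f ∧ bvNorm m univ F ≤ C * bvNorm m E f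

/-- The perimeter of `E` in `U`. -/
noncomputable def per (m : Measure X) (E U : Set X) : ℝ≥0∞ :=
  tv m (E.indicator fun _ => 1) U

/-- `g` is an upper gradient of `f`: a Borel function bounding the increment of `f` along every
curve parametrised by arc length. -/
def IsUpperGradient (f : X → ℝ) (g : X → ℝ≥0∞) : Prop :=
  Measurable g ∧ ∀ (L : ℝ) (γ : ℝ → X), 0 ≤ L → HasUnitSpeedOn γ (Icc 0 L) →
    ‖f (γ L) - f (γ 0)‖ₑ ≤ ∫⁻ t in Icc 0 L, g (γ t)

/-- The measure is doubling. -/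
def IsDoubling (m : Measure X) : Prop :=
  ∃ D : ℝ≥0, ∀ (x : X) (r : ℝ), 0 < r → m (ball x (2 * r)) ≤ D * m (ball x r)

/-- The `(1,1)`-Poincare inequality. -/
def HasPoincare (m : Measure X) : Prop :=
  ∃ (C : ℝ≥0) (l : ℝ), 0 < C ∧ 1 ≤ l ∧ ∀ (f : X → ℝ) (g : X → ℝ≥0∞) (x : X) (r : ℝ), 0 < r →
    LocallyIntegrable f m → IsUpperGradient f g →
      ∫⁻ y in ball x r, ‖f y - ⨍ z in ball x r, f z ∂m‖ₑ ∂m ≤
        C * ENNReal.ofReal r * ∫⁻ y in ball x (l * r), g y ∂m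

/-- `E` is locally `K`-quasiminimal in `W`. -/
def LocQuasiMin (m : Measure X) (K : ℝ≥0) (E W : Set X) : Prop :=
  ∀ x ∈ W, ∃ V : Set X, IsOpen V ∧ x ∈ V ∧ V ⊆ W ∧ ∀ U : Set X, IsOpen U → CptIn U V →
    ∀ F G : Set X, MeasurableSet F → MeasurableSet G → CptIn F U → CptIn G U →
      per m E U ≤ K * per m ((E ∪ F) \ G) U

end Pool.Agent.Lib.MP_2a341d_an
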