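import Mathlib

/-! Consequences of the doubling condition. -/

namespace Pool.Agent.Lib.MP_2a341d_an

open MeasureTheory Metric Set Filter Topology
open scoped ENNReal NNReal

variable {X : Type*} [MetricSpace X] [MeasurableSpace X] {m : Measure X} {D : ℝ≥0}

theorem doubling_pow (hD : ∀ (x : X) (r : ℝ), 0 < r → m (ball x (2 * r)) ≤ D * m (ball x r))
    (n : ℕ) (x : X) {r : ℝ} (hr : 0 < r) : m (ball x (2 ^ n * r)) ≤ D ^ n * m (ball x r) := by
  induction n with
  | zero => simp
  | succ n ih =>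
    rw [pow_succ', mul_assoc, pow_succ', mul_assoc]
    exact (hD x _ (by positivity)).trans (mul_le_mul' le_rfl ih)

theorem ball_ne_zero (hD : ∀ (x : X) (r : ℝ), 0 < r → m (ball x (2 * r)) ≤ D * m (ball x r))
    (hm : m ≠ 0) (x : X) {r : ℝ} (hr : 0 < r) : m (ball x r) ≠ 0 := by
  intro h
  apply hm
  rw [← Measure.measure_univ_eq_zero]
  refine measure_mono_null (t := ⋃ n : ℕ, ball x (2 ^ n * r)) (fun y _ => ?_)
    (measure_iUnion_null fun n => ?_)
  · obtain ⟨n, hn⟩ := pow_unbounded_of_one_lt (dist y x / r) (one_lt_two (α := ℝ))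
    exact mem_iUnion.mpr ⟨n, by rwa [mem_ball, ← div_lt_iff₀ hr]⟩
  · simpa [h] using doubling_pow hD n x hr

theorem properSpace_of_doubling [CompleteSpace X] [BorelSpace X]
    (hD : ∀ (x : X) (r : ℝ), 0 < r → m (ball x (2 * r)) ≤ D * m (ball x r))
    (hm : m ≠ 0) (hfin : ∀ (x : X) (r : ℝ), m (ball x r) ≠ ∞) : ProperSpace X := by
  refine ⟨fun x r => (TotallyBounded.isCompact_of_isClosed ?_ isClosed_closedBall)⟩
  rw [Metric.totallyBounded_iff]
  intro e he
  by_contra hcon
  push Not at hcon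
  obtain ⟨u, hu⟩ := seq_of_forall_finite_exists
    (P := fun c t => c ∈ closedBall x r ∧ ∀ y ∈ t, e ≤ dist c y) (fun t ht => by
      obtain ⟨c, h1, h2⟩ := not_subset.mp (hcon t ht)
      exact ⟨c, h1, fun y hy => not_lt.mp fun h => h2 (mem_iUnion₂.mpr ⟨y, hy, h⟩)⟩)
  have hd : Pairwise (Function.onFun Disjoint fun n => ball (u n) (e / 2)) := by
    refine (pairwise_disjoint_on _).mpr fun a b hab => ball_disjoint_ball ?_
    rw [add_halves, dist_comm]
    exact (hu b).2 _ ⟨a, hab, rfl⟩
  have h1 : ∑' n, m (ball (u n) (e / 2)) ≠ ∞ := by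
    rw [← measure_iUnion hd fun n => measurableSet_ball]
    refine ne_top_of_le_ne_top (hfin x (r + e / 2)) (measure_mono (iUnion_subset fun n y hy => ?_))
    have := dist_triangle y (u n) x
    have h2 : dist (u n) x ≤ r := (hu n).1
    have h3 : dist y (u n) < e / 2 := hy
    rw [mem_ball]
    linarith
  obtain ⟨N, hN⟩ := pow_unbounded_of_one_lt ((r + 1) / (e / 2)) (one_lt_two (α := ℝ))
  rw [div_lt_iff₀ (half_pos he)] at hN
  have h2 := ENNReal.Tendsto.const_mul (a := (D : ℝ≥0∞) ^ N)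
    (ENNReal.tendsto_atTop_zero_of_tsum_ne_top h1) (Or.inr (by simp))
  rw [mul_zero] at h2
  refine ball_ne_zero hD hm x one_pos (le_antisymm (ge_of_tendsto' h2 fun n => ?_) zero_le)
  refine le_trans (measure_mono fun y hy => ?_) (doubling_pow hD N (u n) (half_pos he))
  have := dist_triangle y x (u n)
  have h2 : dist (u n) x ≤ r := (hu n).1
  have h3 : dist y x < 1 := hy
  rw [dist_comm] at h2
  rw [mem_ball]
  linarith

theorem unifLocDoubling (hD : ∀ (x : X) (r : ℝ), 0 < r → m (ball x (2 * r)) ≤ D * m (ball x r)) :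
    IsUnifLocDoublingMeasure m := by
  refine ⟨D ^ 2, ?_⟩
  filter_upwards [self_mem_nhdsWithin] with e he x
  have he' : 0 < e := he
  refine (measure_mono (closedBall_subset_ball (show 2 * e < 2 ^ 2 * e by linarith))).trans
    ((doubling_pow hD 2 x he').trans ?_)
  push_cast
  exact mul_le_mul' le_rfl (measure_mono ball_subset_closedBall)

end Pool.Agent.Lib.MP_2a341d_an
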