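import Mathlib
import Pool.Agent.Lib.MP_2a341d_an.Defs
import Pool.Agent.Lib.MP_2a341d_an.Doubling

-- part Pool.Agent.Lib.MP_2a341d_an.Lip
section

/-! Calculus rules for the asymptotic Lipschitz constant. -/

namespace Pool.Agent.Lib.MP_2a341d_an

open MeasureTheory Metric Set Filter Topology
open scoped ENNReal NNReal

variable {X : Type*} [MetricSpace X] {f g : X → ℝ} {x : X}

theorem lipa_le {K : ℝ≥0} {t : Set X} (ht : t ∈ 𝓝 x) (h : LipschitzOnWith K f t) :
    lipa f x ≤ K := by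
  obtain ⟨r, hr, hrt⟩ := Metric.mem_nhds_iff.mp ht
  exact iInf₂_le_of_le r hr (iInf₂_le K (h.mono hrt))

theorem exists_of_lipa_lt {c : ℝ≥0∞} (h : lipa f x < c) :
    ∃ K : ℝ≥0, (K : ℝ≥0∞) < c ∧ ∃ r, 0 < r ∧ LipschitzOnWith K f (ball x r) := by
  simp only [lipa, lipOn, iInf_lt_iff] at h
  obtain ⟨r, hr, K, hK, h⟩ := h
  exact ⟨K, h, r, hr, hK⟩

theorem exists_of_lipa_le {a : ℝ≥0} (h : lipa f x ≤ a) {e : ℝ≥0} (he : 0 < e) :
    ∃ r, 0 < r ∧ LipschitzOnWith (a + e) f (ball x r) := by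
  obtain ⟨K, hK, r, hr, h1⟩ := exists_of_lipa_lt (c := ((a + e : ℝ≥0) : ℝ≥0∞))
    (h.trans_lt (by exact_mod_cast lt_add_of_pos_right a he))
  exact ⟨r, hr, h1.weaken (by exact_mod_cast hK.le)⟩

theorem isOpen_lipa_lt (f : X → ℝ) (c : ℝ≥0∞) : IsOpen {x | lipa f x < c} := by
  rw [isOpen_iff_mem_nhds]
  intro x hx
  obtain ⟨K, hK, r, hr, h⟩ := exists_of_lipa_lt hx
  filter_upwards [ball_mem_nhds x hr] with y hy
  exact (lipa_le (isOpen_ball.mem_nhds hy) h).trans_lt hK

theorem measurable_lipa [MeasurableSpace X] [BorelSpace X] (f : X → ℝ) : Measurable (lipa f) :=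
  measurable_of_Iio fun c => (isOpen_lipa_lt f c).measurableSet

theorem lipa_congr (h : f =ᶠ[𝓝 x] g) : lipa f x = lipa g x := by
  have key : ∀ {f g : X → ℝ}, f =ᶠ[𝓝 x] g → lipa f x ≤ lipa g x := by
    intro f g h
    refine le_of_forall_gt_imp_ge_of_dense fun c hc => ?_
    obtain ⟨K, hK, r, hr, h1⟩ := exists_of_lipa_lt hc
    refine (lipa_le (inter_mem (ball_mem_nhds x hr) h) ?_).trans hK.le
    intro y hy z hz
    rw [hy.2, hz.2]
    exact h1 hy.1 hz.1
  exact le_antisymm (key h) (key h.symm)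

theorem lipa_const (c : ℝ) : lipa (fun _ : X => c) x = 0 :=
  le_antisymm (by simpa using lipa_le (K := 0) univ_mem (LipschitzWith.const c).lipschitzOnWith)
    zero_le

theorem lipa_eq_zero {c : ℝ} (h : f =ᶠ[𝓝 x] fun _ => c) : lipa f x = 0 := by
  rw [lipa_congr h, lipa_const]

theorem lipa_le_of_tendsto {h : X → ℝ} {F : ℝ≥0 → ℝ≥0} (hF : Continuous F)
    (H : ∀ e : ℝ≥0, 0 < e → lipa h x ≤ F e) : lipa h x ≤ F 0 := by
  have h1 : Tendsto (fun e => (F e : ℝ≥0∞)) (𝓝[>] 0) (𝓝 (F 0)) :=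
    ((ENNReal.continuous_coe.comp hF).tendsto 0).mono_left nhdsWithin_le_nhds
  exact ge_of_tendsto h1 (eventually_nhdsWithin_of_forall H)

theorem lipa_add_le (f g : X → ℝ) (x : X) :
    lipa (fun y => f y + g y) x ≤ lipa f x + lipa g x := by
  rcases eq_or_ne (lipa f x) ∞ with h | h
  · simp [h]
  rcases eq_or_ne (lipa g x) ∞ with h' | h'
  · simp [h']
  lift lipa f x to ℝ≥0 using h with a ha
  lift lipa g x to ℝ≥0 using h' with b hb
  have := lipa_le_of_tendsto (h := fun y => f y + g y) (x := x)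
    (F := fun e => (a + e) + (b + e)) (by fun_prop) (fun e he => by
      obtain ⟨r, hr, h1⟩ := exists_of_lipa_le ha.ge he
      obtain ⟨s, hs, h2⟩ := exists_of_lipa_le hb.ge he
      exact lipa_le (inter_mem (ball_mem_nhds x hr) (ball_mem_nhds x hs))
        ((h1.mono inter_subset_left).add (h2.mono inter_subset_right)))
  simpa using this

theorem lipa_comp_le {φ : ℝ → ℝ} {L : ℝ≥0} (hφ : LipschitzWith L φ) (h : lipa f x ≠ ∞) :
    lipa (fun y => φ (f y)) x ≤ L * lipa f x := by
  lift lipa f x to ℝ≥0 using h with a ha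
  have := lipa_le_of_tendsto (h := fun y => φ (f y)) (x := x)
    (F := fun e => L * (a + e)) (by fun_prop) (fun e he => by
      obtain ⟨r, hr, h1⟩ := exists_of_lipa_le ha.ge he
      exact lipa_le (ball_mem_nhds x hr) (hφ.comp_lipschitzOnWith h1))
  simpa using this

theorem lipa_mul_le (h : lipa f x ≠ ∞) (h' : lipa g x ≠ ∞) :
    lipa (fun y => f y * g y) x ≤ ‖f x‖ₑ * lipa g x + ‖g x‖ₑ * lipa f x := by
  lift lipa f x to ℝ≥0 using h with a ha
  lift lipa g x to ℝ≥0 using h' with b hb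
  have := lipa_le_of_tendsto (h := fun y => f y * g y) (x := x)
    (F := fun e => (‖f x‖₊ + (a + e) * e) * (b + e) + (‖g x‖₊ + (b + e) * e) * (a + e))
    (by fun_prop) (fun e he => by
      obtain ⟨r, hr, h1⟩ := exists_of_lipa_le ha.ge he
      obtain ⟨s, hs, h2⟩ := exists_of_lipa_le hb.ge he
      have he' : (0 : ℝ) < e := he
      refine lipa_le (inter_mem (inter_mem (ball_mem_nhds x hr) (ball_mem_nhds x hs))
        (ball_mem_nhds x he')) (LipschitzOnWith.of_dist_le_mul fun y hy z hz => ?_)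
      have a1 := h1.dist_le_mul y hy.1.1 z hz.1.1
      have a2 := h2.dist_le_mul y hy.1.2 z hz.1.2
      have a3 := h1.dist_le_mul y hy.1.1 x (mem_ball_self hr)
      have a4 := h2.dist_le_mul z hz.1.2 x (mem_ball_self hs)
      have a5 : dist y x ≤ e := (mem_ball.mp hy.2).le
      have a6 : dist z x ≤ e := (mem_ball.mp hz.2).le
      rw [Real.dist_eq] at a1 a2 a3 a4 ⊢
      push_cast at a1 a2 a3 a4 ⊢
      have hae : (0 : ℝ) ≤ a + e := by positivity
      have hbe : (0 : ℝ) ≤ b + e := by positivity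
      have b1 : |f y| ≤ ‖f x‖ + (a + e) * e := by
        have := abs_add_le (f x) (f y - f x)
        rw [add_sub_cancel] at this
        have := mul_le_mul_of_nonneg_left a5 hae
        rw [Real.norm_eq_abs]
        linarith
      have b2 : |g z| ≤ ‖g x‖ + (b + e) * e := by
        have := abs_add_le (g x) (g z - g x)
        rw [add_sub_cancel] at this
        have := mul_le_mul_of_nonneg_left a6 hbe
        rw [Real.norm_eq_abs]
        linarith
      calc |f y * g y - f z * g z| = |f y * (g y - g z) + g z * (f y - f z)| := by ring_nf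
        _ ≤ |f y| * |g y - g z| + |g z| * |f y - f z| := by
            rw [← abs_mul, ← abs_mul]; exact abs_add_le _ _
        _ ≤ (‖f x‖ + (a + e) * e) * ((b + e) * dist y z) +
              (‖g x‖ + (b + e) * e) * ((a + e) * dist y z) := by gcongr
        _ = _ := by ring)
  simpa [enorm] using this

theorem lipa_ne_top_of_locallyLipschitzOn {A : Set X} (hA : IsOpen A)
    (h : LocallyLipschitzOn A f) (hx : x ∈ A) : lipa f x ≠ ∞ := by
  obtain ⟨K, t, ht, h1⟩ := h hx
  rw [hA.nhdsWithin_eq hx] at ht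
  exact ne_top_of_le_ne_top ENNReal.coe_ne_top (lipa_le ht h1)

theorem locallyLipschitzOn_of_lipa {A : Set X} (h : ∀ x ∈ A, lipa f x ≠ ∞) :
    LocallyLipschitzOn A f := by
  intro x hx
  obtain ⟨K, -, r, hr, h1⟩ := exists_of_lipa_lt (h x hx).lt_top
  exact ⟨K, _, mem_nhdsWithin_of_mem_nhds (ball_mem_nhds x hr), h1⟩

/-- Bounded functions with bounded asymptotic Lipschitz constant. -/
def Good (f : X → ℝ) : Prop := ∃ L : ℝ≥0, ∀ x, lipa f x ≤ L ∧ ‖f x‖ₑ ≤ L

theorem Good.ne_top (h : Good f) (x : X) : lipa f x ≠ ∞ := by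
  obtain ⟨L, hL⟩ := h
  exact ne_top_of_le_ne_top ENNReal.coe_ne_top (hL x).1

theorem Good.continuous (h : Good f) : Continuous f :=
  continuousOn_univ.mp (locallyLipschitzOn_of_lipa fun x _ => h.ne_top x).continuousOn

theorem Good.mul (h : Good f) (h' : Good g) : Good fun y => f y * g y := by
  obtain ⟨L, hL⟩ := id h
  obtain ⟨M, hM⟩ := id h'
  refine ⟨L * M + M * L, fun x => ⟨(lipa_mul_le (h.ne_top x) (h'.ne_top x)).trans ?_, ?_⟩⟩
  · push_cast
    gcongr
    exacts [(hL x).2, (hM x).1, (hM x).2, (hL x).1]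
  · rw [enorm_mul]
    push_cast
    exact le_add_right (mul_le_mul' (hL x).2 (hM x).2)

theorem Good.comp {φ : ℝ → ℝ} {L : ℝ≥0} (hφ : LipschitzWith L φ) (h : Good f) :
    Good fun y => φ (f y) := by
  obtain ⟨M, hM⟩ := id h
  refine ⟨L * M + ‖φ 0‖₊, fun x => ⟨(lipa_comp_le hφ (h.ne_top x)).trans ?_, ?_⟩⟩
  · push_cast
    exact le_add_right (mul_le_mul' le_rfl (hM x).1)
  · have h1 := hφ.dist_le_mul (f x) 0
    have h2 : ‖f x‖ ≤ M := by
      have := (hM x).2
      rw [enorm_eq_nnnorm, ENNReal.coe_le_coe] at this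
      exact this
    rw [enorm_eq_nnnorm, ENNReal.coe_le_coe, ← NNReal.coe_le_coe]
    push_cast
    rw [dist_zero_right, dist_eq_norm] at h1
    have h3 := norm_add_le (φ (f x) - φ 0) (φ 0)
    rw [sub_add_cancel] at h3
    have h4 := mul_le_mul_of_nonneg_left h2 L.coe_nonneg
    exact h3.trans (by linarith [h4])

theorem good_of_lipschitz {L : ℝ≥0} (h : LipschitzWith L f) {M : ℝ} (hM : ∀ x, |f x| ≤ M) :
    Good f := by
  refine ⟨L + M.toNNReal, fun x => ⟨?_, ?_⟩⟩
  · push_cast
    exact le_add_right (lipa_le univ_mem h.lipschitzOnWith)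
  · push_cast
    refine le_add_left ?_
    rw [enorm_eq_nnnorm, ENNReal.coe_le_coe, ← NNReal.coe_le_coe]
    exact (hM x).trans (Real.le_coe_toNNReal M)

/-- Clamping to the interval `[0, b]`. -/
def clamp (b y : ℝ) : ℝ := max 0 (min y b)

theorem lipschitz_clamp (b : ℝ) : LipschitzWith 1 (clamp b) :=
  (LipschitzWith.id.min_const b).const_max 0

theorem clamp_nonneg (b y : ℝ) : 0 ≤ clamp b y := le_max_left _ _

theorem clamp_le {b : ℝ} (hb : 0 ≤ b) (y : ℝ) : clamp b y ≤ b := max_le hb (min_le_right _ _)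

theorem clamp_of_nonpos {b y : ℝ} (h : y ≤ 0) : clamp b y = 0 :=
  max_eq_left ((min_le_left _ _).trans h)

theorem clamp_of_ge {b y : ℝ} (hb : 0 ≤ b) (h : b ≤ y) : clamp b y = b := by
  rw [clamp, min_eq_right h, max_eq_right hb]

theorem clamp_of_mem {b y : ℝ} (h0 : 0 ≤ y) (h : y ≤ b) : clamp b y = y := by
  rw [clamp, min_eq_left h, max_eq_right h0]

theorem exists_good_extension {A S : Set X} (hS : IsCompact S) (hSA : S ⊆ A)
    (h : LocallyLipschitzOn A f) : ∃ g : X → ℝ, (∃ L, LipschitzWith L g) ∧ Good g ∧ EqOn f g S := by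
  obtain ⟨K, hK⟩ := (h.mono hSA).exists_lipschitzOnWith_of_compact hS
  obtain ⟨g, hg, he⟩ := hK.extend_real
  obtain ⟨M, hM⟩ := hS.exists_bound_of_continuousOn hK.continuousOn
  have hl : LipschitzWith K fun y => max (-M) (min (g y) M) := (hg.min_const M).const_max (-M)
  refine ⟨fun y => max (-M) (min (g y) M), ⟨K, hl⟩, good_of_lipschitz hl (M := |M|) ?_, ?_⟩
  · intro y
    rw [abs_le]
    exact ⟨(neg_le_neg (le_abs_self M)).trans (le_max_left _ _),
      max_le (neg_le_abs M) ((min_le_right _ _).trans (le_abs_self M))⟩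
  · intro y hy
    have := abs_le.mp (hM y hy)
    simp only [← he hy]
    rw [min_eq_left this.2, max_eq_right this.1]

theorem isUpperGradient_lipa [MeasurableSpace X] [BorelSpace X] {K : ℝ≥0}
    (h : LipschitzWith K f) : IsUpperGradient f (lipa f) := by
  refine ⟨measurable_lipa f, fun L γ hL hγ => ?_⟩
  have h1 : LipschitzOnWith 1 γ (Icc 0 L) := by
    have key : ∀ s ∈ Icc 0 L, ∀ t ∈ Icc 0 L, s ≤ t → edist (γ s) (γ t) ≤ edist s t := by
      intro s hs t ht hst
      have a1 := hγ hs ht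
      have a2 := eVariationOn.edist_le γ (s := Icc 0 L ∩ Icc s t) ⟨hs, le_rfl, hst⟩ ⟨ht, hst, le_rfl⟩
      rw [a1] at a2
      rw [edist_dist s t, Real.dist_eq, abs_sub_comm, abs_of_nonneg (sub_nonneg.mpr hst)]
      simpa using a2
    intro s hs t ht
    rw [ENNReal.coe_one, one_mul]
    rcases le_total s t with hst | hst
    · exact key s hs t ht hst
    · rw [edist_comm, edist_comm s]; exact key t ht s hs hst
  have h2 : AbsolutelyContinuousOnInterval (fun t => f (γ t)) 0 L := by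
    apply LipschitzOnWith.absolutelyContinuousOnInterval (K := K * 1)
    rw [uIcc_of_le hL]
    exact h.comp_lipschitzOnWith h1
  rw [← h2.integral_deriv_eq_sub, intervalIntegral.integral_of_le hL, ← setLIntegral_congr
    (Ioo_ae_eq_Icc (μ := volume) (a := 0) (b := L)), integral_Ioc_eq_integral_Ioo]
  refine (enorm_integral_le_lintegral_enorm _).trans (setLIntegral_mono' measurableSet_Ioo ?_)
  intro t ht
  refine le_of_forall_gt_imp_ge_of_dense fun c hc => ?_
  obtain ⟨M, hM, r, hr, h3⟩ := exists_of_lipa_lt hc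
  refine le_trans ?_ hM.le
  have h4 : Icc 0 L ∈ 𝓝 t := Icc_mem_nhds ht.1 ht.2
  have h5 : γ ⁻¹' ball (γ t) r ∈ 𝓝 t :=
    (h1.continuousOn.continuousAt h4).preimage_mem_nhds (ball_mem_nhds _ hr)
  have h6 : LipschitzOnWith (M * 1) (fun t => f (γ t)) (Icc 0 L ∩ γ ⁻¹' ball (γ t) r) :=
    h3.comp (h1.mono inter_subset_left) fun s hs => hs.2
  have h7 := norm_deriv_le_of_lipschitzOn (inter_mem h4 h5) h6
  rw [enorm_eq_nnnorm, ENNReal.coe_le_coe, ← NNReal.coe_le_coe]
  simpa using h7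

end Pool.Agent.Lib.MP_2a341d_an
end

-- part Pool.Agent.Lib.MP_2a341d_an.TV
section

/-! Basic properties of the total variation on open sets. -/

namespace Pool.Agent.Lib.MP_2a341d_an

open MeasureTheory Metric Set Filter Topology
open scoped ENNReal NNReal

set_option linter.unusedSectionVars false

variable {X : Type*} [MetricSpace X] [MeasurableSpace X] [BorelSpace X] {m : Measure X}
  {u v : X → ℝ} {A B : Set X}

theorem L1LocTendsto.mono {g : ℕ → X → ℝ} (h : L1LocTendsto m A g u) (hB : B ⊆ A) :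
    L1LocTendsto m B g u := by
  intro x hx
  obtain ⟨U, hU, h1⟩ := h x (hB hx)
  exact ⟨U, hU, tendsto_of_tendsto_of_tendsto_of_le_of_le tendsto_const_nhds h1
    (fun _ => zero_le) fun n => lintegral_mono_set (inter_subset_inter_right _ hB)⟩

theorem L1LocTendsto.tendsto_compact {g : ℕ → X → ℝ} (h : L1LocTendsto m A g u) {S : Set X}
    (hS : IsCompact S) (hSA : S ⊆ A) :
    Tendsto (fun n => ∫⁻ y in S, ‖g n y - u y‖ₑ ∂m) atTop (𝓝 0) := by
  refine hS.induction_on (p := fun T =>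
    Tendsto (fun n => ∫⁻ y in T, ‖g n y - u y‖ₑ ∂m) atTop (𝓝 0)) ?_ ?_ ?_ ?_
  · simp
  · intro s t hst ht
    exact tendsto_of_tendsto_of_tendsto_of_le_of_le tendsto_const_nhds ht
      (fun _ => zero_le) fun n => lintegral_mono_set hst
  · intro s t hs ht
    have := hs.add ht
    rw [add_zero] at this
    exact tendsto_of_tendsto_of_tendsto_of_le_of_le tendsto_const_nhds this
      (fun _ => zero_le) fun n => lintegral_union_le _ _ _
  · intro x hx
    obtain ⟨U, hU, h1⟩ := h x (hSA hx)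
    exact ⟨U ∩ A, inter_mem (mem_nhdsWithin_of_mem_nhds hU)
      (mem_of_superset self_mem_nhdsWithin hSA), h1⟩

theorem tvOpen_mono (h : B ⊆ A) : tvOpen m u B ≤ tvOpen m u A := by
  refine le_iInf fun g => le_iInf fun h1 => le_iInf fun h2 => ?_
  refine iInf_le_of_le g (iInf_le_of_le (fun n => (h1 n).mono h) (iInf_le_of_le (h2.mono h) ?_))
  exact liminf_le_liminf (Eventually.of_forall fun n => lintegral_mono_set h)

theorem tv_eq_tvOpen (hA : IsOpen A) : tv m u A = tvOpen m u A :=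
  le_antisymm (iInf_le_of_le A (iInf_le_of_le hA (iInf_le _ subset_rfl)))
    (le_iInf fun _ => le_iInf fun _ => le_iInf fun h => tvOpen_mono h)

theorem aux_liminf_add (a b : ℕ → ℝ≥0∞) :
    liminf a atTop + liminf b atTop ≤ liminf (fun n => a n + b n) atTop := by
  simp only [liminf_eq_iSup_iInf_of_nat]
  refine ENNReal.iSup_add_iSup_le fun i j => le_iSup_of_le (max i j) (le_iInf₂ fun n hn => ?_)
  exact add_le_add (iInf₂_le n (le_of_max_le_left hn)) (iInf₂_le n (le_of_max_le_right hn))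

theorem tvOpen_add_le (hB : MeasurableSet B) (hAB : Disjoint A B) :
    tvOpen m u A + tvOpen m u B ≤ tvOpen m u (A ∪ B) := by
  refine le_iInf fun g => le_iInf fun h1 => le_iInf fun h2 => ?_
  have a1 : tvOpen m u A ≤ liminf (fun n => ∫⁻ x in A, lipa (g n) x ∂m) atTop :=
    iInf_le_of_le g (iInf_le_of_le (fun n => (h1 n).mono subset_union_left)
      (iInf_le _ (h2.mono subset_union_left)))
  have a2 : tvOpen m u B ≤ liminf (fun n => ∫⁻ x in B, lipa (g n) x ∂m) atTop :=
    iInf_le_of_le g (iInf_le_of_le (fun n => (h1 n).mono subset_union_right)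
      (iInf_le _ (h2.mono subset_union_right)))
  refine (add_le_add a1 a2).trans ?_
  simp only [lintegral_union hB hAB]
  exact aux_liminf_add _ _

theorem tsum_tvOpen_le {ι : Type*} (T : Set ι) (W : ι → Set X)
    (hW : ∀ i ∈ T, MeasurableSet (W i)) (hd : T.PairwiseDisjoint W) (hA : ∀ i ∈ T, W i ⊆ A) :
    ∑' i : T, tvOpen m u (W i) ≤ tvOpen m u A := by
  classical
  refine ENNReal.summable.tsum_le_of_sum_le fun s => ?_
  suffices h : ∑ i ∈ s, tvOpen m u (W i) ≤ tvOpen m u (⋃ i ∈ s, W i) from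
    h.trans (tvOpen_mono (iUnion₂_subset fun i _ => hA i i.2))
  induction s using Finset.induction_on with
  | empty => simp
  | insert i s hi ih =>
    rw [Finset.sum_insert hi, Finset.set_biUnion_insert]
    refine (add_le_add le_rfl ih).trans (tvOpen_add_le
      (Finset.measurableSet_biUnion s fun j _ => hW j j.2) ?_)
    refine disjoint_iUnion₂_right.mpr fun j hj => hd i.2 j.2 fun h => hi ?_
    rwa [Subtype.ext h]

/-- `u` is approximated in `L¹(A)` by locally Lipschitz functions of energy about `c`. -/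
def Ap (m : Measure X) (u : X → ℝ) (A : Set X) (c : ℝ≥0∞) : Prop :=
  ∀ e : ℝ≥0, 0 < e → ∃ g : X → ℝ, LocallyLipschitzOn A g ∧ ∫⁻ x in A, ‖g x - u x‖ₑ ∂m ≤ e ∧
    ∫⁻ x in A, lipa g x ∂m ≤ c + e

theorem Ap.tvOpen_le {c : ℝ≥0∞} (h : Ap m u A c) : tvOpen m u A ≤ c := by
  obtain ⟨e, -, he, he0⟩ := exists_seq_strictAnti_tendsto (0 : ℝ≥0)
  choose g h1 h2 h3 using fun n => h (e n) (he n)
  have he1 : Tendsto (fun n => (e n : ℝ≥0∞)) atTop (𝓝 0) := by
    simpa using ENNReal.tendsto_coe.mpr he0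
  refine iInf_le_of_le g (iInf_le_of_le h1 (iInf_le_of_le (fun x _ => ⟨univ, univ_mem, ?_⟩) ?_))
  · rw [univ_inter]
    exact tendsto_of_tendsto_of_tendsto_of_le_of_le tendsto_const_nhds he1 (fun _ => zero_le) h2
  · refine (liminf_le_liminf (Eventually.of_forall h3)).trans (le_of_eq ?_)
    have := (tendsto_const_nhds (x := c)).add he1
    rw [add_zero] at this
    exact this.liminf_eq

theorem Ap.mono {c d : ℝ≥0∞} (h : Ap m u A c) (hcd : c ≤ d) : Ap m u A d := fun e he => by
  obtain ⟨g, h1, h2, h3⟩ := h e he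
  exact ⟨g, h1, h2, h3.trans (add_le_add hcd le_rfl)⟩

theorem lintegral_enorm_sub_le {μ : Measure X} {f g h : X → ℝ}
    (hm : AEMeasurable (fun x => g x - h x) μ) :
    ∫⁻ x, ‖f x - h x‖ₑ ∂μ ≤ ∫⁻ x, ‖f x - g x‖ₑ ∂μ + ∫⁻ x, ‖g x - h x‖ₑ ∂μ := by
  rw [← lintegral_add_right' _ hm.enorm]
  refine lintegral_mono fun x => ?_
  have := enorm_add_le (f x - g x) (g x - h x)
  rwa [sub_add_sub_cancel] at this

theorem Ap.limit {c : ℝ≥0∞} (h : ∀ e : ℝ≥0, 0 < e → ∃ v : X → ℝ,
    AEMeasurable (fun x => v x - u x) (m.restrict A) ∧ ∫⁻ x in A, ‖v x - u x‖ₑ ∂m ≤ e ∧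
      Ap m v A (c + e)) : Ap m u A c := by
  intro e he
  obtain ⟨v, h0, h1, h2⟩ := h (e / 2) (by positivity)
  obtain ⟨g, h3, h4, h5⟩ := h2 (e / 2) (by positivity)
  have h6 : ((e / 2 : ℝ≥0) : ℝ≥0∞) + ((e / 2 : ℝ≥0) : ℝ≥0∞) = e := by
    rw [← ENNReal.coe_add, add_halves]
  refine ⟨g, h3, (lintegral_enorm_sub_le h0).trans ?_, ?_⟩
  · rw [← h6]; exact add_le_add h4 h1
  · rwa [add_assoc, h6] at h5

theorem Ap.add {c d : ℝ≥0∞} (hA : IsOpen A) (hv : Measurable v) (h : Ap m u A c)
    (h' : Ap m v A d) : Ap m (fun x => u x + v x) A (c + d) := by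
  intro e he
  obtain ⟨g, h1, h2, h3⟩ := h (e / 2) (by positivity)
  obtain ⟨g', h4, h5, h6⟩ := h' (e / 2) (by positivity)
  have h7 : ((e / 2 : ℝ≥0) : ℝ≥0∞) + ((e / 2 : ℝ≥0) : ℝ≥0∞) = e := by
    rw [← ENNReal.coe_add, add_halves]
  refine ⟨fun x => g x + g' x, h1.add h4, ?_, ?_⟩
  · rw [← h7]
    refine le_trans ?_ (add_le_add h2 h5)
    have hm : AEMeasurable (fun x => ‖g' x - v x‖ₑ) (m.restrict A) :=
      ((h4.continuousOn.aemeasurable hA.measurableSet).sub hv.aemeasurable).enorm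
    rw [← lintegral_add_right' _ hm]
    refine lintegral_mono fun x => ?_
    have := enorm_add_le (g x - u x) (g' x - v x)
    rwa [show g x - u x + (g' x - v x) = g x + g' x - (u x + v x) by ring] at this
  · rw [← h7, add_add_add_comm]
    refine le_trans ?_ (add_le_add h3 h6)
    rw [← lintegral_add_right _ (measurable_lipa g')]
    exact lintegral_mono fun x => lipa_add_le g g' x

theorem Ap.neg {c : ℝ≥0∞} (hA : IsOpen A) (h : Ap m u A c) : Ap m (fun x => -u x) A c := by
  intro e he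
  obtain ⟨g, h1, h2, h3⟩ := h e he
  refine ⟨fun x => -g x, h1.neg, ?_, le_trans ?_ h3⟩
  · refine le_trans (le_of_eq (lintegral_congr fun x => ?_)) h2
    rw [← enorm_neg]; congr 1; ring
  · refine setLIntegral_mono' hA.measurableSet fun x hx => ?_
    have := lipa_comp_le (φ := fun y : ℝ => -y) LipschitzWith.id.neg
      (lipa_ne_top_of_locallyLipschitzOn hA h1 hx)
    simpa using this

theorem Ap.zero : Ap m (fun _ => 0) A 0 := fun e _ =>
  ⟨fun _ => 0, (LipschitzWith.const 0).locallyLipschitz.locallyLipschitzOn, by simp,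
    by simp [lipa_const]⟩

theorem Ap.sum {ι : Type*} (hA : IsOpen A) (s : Finset ι) (u : ι → X → ℝ) (c : ι → ℝ≥0∞)
    (hu : ∀ i ∈ s, Measurable (u i)) (h : ∀ i ∈ s, Ap m (u i) A (c i)) :
    Ap m (fun x => ∑ i ∈ s, u i x) A (∑ i ∈ s, c i) := by
  classical
  induction s using Finset.induction_on with
  | empty => simpa using Ap.zero
  | insert i s hi ih =>
    simp only [Finset.sum_insert hi]
    exact Ap.add hA (Finset.measurable_sum s fun j hj => hu j (Finset.mem_insert_of_mem hj))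
      (h i (Finset.mem_insert_self _ _))
      (ih (fun j hj => hu j (Finset.mem_insert_of_mem hj))
        fun j hj => h j (Finset.mem_insert_of_mem hj))

/-- One good member of an almost optimal sequence. -/
theorem exists_of_tvOpen_lt {c : ℝ≥0∞} (h : tvOpen m u A < c) {S : Set X} (hS : IsCompact S)
    (hSA : S ⊆ A) {e : ℝ≥0} (he : 0 < e) :
    ∃ g : X → ℝ, LocallyLipschitzOn A g ∧ ∫⁻ x in S, ‖g x - u x‖ₑ ∂m ≤ e ∧
      ∫⁻ x in A, lipa g x ∂m < c := by
  simp only [tvOpen, iInf_lt_iff] at h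
  obtain ⟨g, h1, h2, h3⟩ := h
  have h4 := (h2.tendsto_compact hS hSA).eventually
    (ge_mem_nhds (show (0 : ℝ≥0∞) < e by exact_mod_cast he))
  obtain ⟨n, h5, h6⟩ := ((frequently_lt_of_liminf_lt (h := h3)).and_eventually h4).exists
  exact ⟨g n, h1 n, h6, h5⟩

/-- Approximation of an indicator on an open set of finite measure. -/
theorem exists_approx_indicator [ProperSpace X] [IsLocallyFiniteMeasure m] {E W : Set X}
    (hW : IsOpen W) (hm : m W ≠ ∞) (hP : tvOpen m (E.indicator fun _ => 1) W ≠ ∞)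
    {e : ℝ≥0} (he : 0 < e) :
    ∃ g : X → ℝ, LocallyLipschitzOn W g ∧ (∀ x, 0 ≤ g x ∧ g x ≤ 1) ∧
      ∫⁻ x in W, ‖g x - E.indicator (fun _ => 1) x‖ₑ ∂m ≤ e ∧
      ∫⁻ x in W, lipa g x ∂m ≤ tvOpen m (E.indicator fun _ => 1) W + e := by
  have he2 : (0 : ℝ≥0) < e / 2 := by positivity
  obtain ⟨S, hSW, hS, hSm⟩ := hW.measurableSet.exists_isCompact_sdiff_lt hm
    (ε := ((e / 2 : ℝ≥0) : ℝ≥0∞)) (by exact_mod_cast he2.ne')
  obtain ⟨g, h1, h2, h3⟩ := exists_of_tvOpen_lt
    (ENNReal.lt_add_right hP (show (e : ℝ≥0∞) ≠ 0 by exact_mod_cast he.ne')) hS hSW he2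
  have hl : ∀ x ∈ W, lipa (fun y => clamp 1 (g y)) x ≤ lipa g x := fun x hx => by
    simpa using lipa_comp_le (lipschitz_clamp 1) (lipa_ne_top_of_locallyLipschitzOn hW h1 hx)
  have hind : ∀ x, 0 ≤ E.indicator (fun _ => (1 : ℝ)) x ∧ E.indicator (fun _ => (1 : ℝ)) x ≤ 1 :=
    fun x => by by_cases hx : x ∈ E <;> simp [hx]
  refine ⟨fun y => clamp 1 (g y), locallyLipschitzOn_of_lipa fun x hx =>
    ne_top_of_le_ne_top (lipa_ne_top_of_locallyLipschitzOn hW h1 hx) (hl x hx),
    fun x => ⟨clamp_nonneg _ _, clamp_le zero_le_one _⟩, ?_,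
    (setLIntegral_mono' hW.measurableSet hl).trans h3.le⟩
  rw [← union_sdiff_cancel hSW]
  refine (lintegral_union_le _ _ _).trans ?_
  rw [← add_halves e, ENNReal.coe_add]
  refine add_le_add (le_trans (lintegral_mono fun x => ?_) h2) ?_
  · have := (lipschitz_clamp 1).edist_le_mul (g x) (E.indicator (fun _ => (1 : ℝ)) x)
    rw [clamp_of_mem (hind x).1 (hind x).2, ENNReal.coe_one, one_mul, edist_eq_enorm_sub,
      edist_eq_enorm_sub] at this
    exact this
  · refine le_trans (lintegral_mono (g := fun _ => 1) fun x => ?_) (by simpa using hSm.le)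
    rw [← ofReal_norm, ENNReal.ofReal_le_one, Real.norm_eq_abs, abs_le]
    have := clamp_nonneg 1 (g x)
    have := clamp_le zero_le_one (g x)
    have := hind x
    constructor <;> linarith

/-- The product of an indicator and a Lipschitz cut-off. -/
theorem ap_indicator_mul [ProperSpace X] [IsLocallyFiniteMeasure m] {E U W : Set X}
    (hE : MeasurableSet E) (hU : IsOpen U) (hW : IsOpen W) (hWU : W ⊆ U) (hm : m W ≠ ∞)
    (hP : tvOpen m (E.indicator fun _ => 1) W ≠ ∞) {ψ : X → ℝ} (hψ : Good ψ) {b : ℝ≥0}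
    (hb : ∀ x, ‖ψ x‖ₑ ≤ b) (h0 : ∀ x ∈ U, x ∉ W → ψ =ᶠ[𝓝 x] fun _ => 0) :
    Ap m (E.indicator ψ) U (b * tvOpen m (E.indicator fun _ => 1) W + ∫⁻ x in E, lipa ψ x ∂m) := by
  intro e he
  obtain ⟨L, hL⟩ := id hψ
  set d : ℝ≥0 := e / (b + L + 1) with hd
  have hd0 : 0 < d := by positivity
  have hde : (b + L + 1) * d = e := by rw [hd]; field_simp
  obtain ⟨g, h1, h2, h3, h4⟩ := exists_approx_indicator hW hm hP hd0
  set h : X → ℝ := W.indicator fun x => g x * ψ x with hh
  have hin : ∀ x ∈ W, h =ᶠ[𝓝 x] fun x => g x * ψ x := fun x hx => by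
    filter_upwards [hW.mem_nhds hx] with y hy
    rw [hh, indicator_of_mem hy]
  have hout : ∀ x ∈ U, x ∉ W → h =ᶠ[𝓝 x] fun _ => 0 := fun x hx hx' => by
    filter_upwards [h0 x hx hx'] with y hy
    by_cases hyW : y ∈ W <;> simp [hh, hyW, hy]
  have hg1 : ∀ x, ‖g x‖ₑ ≤ 1 := fun x => by
    rw [← ofReal_norm, ENNReal.ofReal_le_one, Real.norm_eq_abs, abs_of_nonneg (h2 x).1]
    exact (h2 x).2
  have hlip : ∀ x ∈ W, lipa h x ≤ E.indicator (lipa ψ) x +
      (L * ‖g x - E.indicator (fun _ => 1) x‖ₑ + b * lipa g x) := by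
    intro x hx
    rw [lipa_congr (hin x hx), ← add_assoc]
    refine (lipa_mul_le (lipa_ne_top_of_locallyLipschitzOn hW h1 hx) (hψ.ne_top x)).trans
      (add_le_add ?_ (mul_le_mul' (hb x) le_rfl))
    by_cases hxE : x ∈ E
    · rw [indicator_of_mem hxE]
      exact le_add_right (by simpa using mul_le_mul' (hg1 x) (le_refl (lipa ψ x)))
    · rw [indicator_of_notMem hxE, indicator_of_notMem hxE, zero_add, sub_zero, mul_comm]
      exact mul_le_mul' (hL x).1 le_rfl
  refine ⟨h, locallyLipschitzOn_of_lipa fun x hx => ?_, ?_, ?_⟩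
  · by_cases hxW : x ∈ W
    · rw [lipa_congr (hin x hxW)]
      refine ne_top_of_le_ne_top ?_
        (lipa_mul_le (lipa_ne_top_of_locallyLipschitzOn hW h1 hxW) (hψ.ne_top x))
      exact ENNReal.add_ne_top.mpr ⟨ENNReal.mul_ne_top enorm_ne_top (hψ.ne_top x),
        ENNReal.mul_ne_top enorm_ne_top (lipa_ne_top_of_locallyLipschitzOn hW h1 hxW)⟩
    · rw [lipa_eq_zero (hout x hx hxW)]; exact ENNReal.zero_ne_top
  · calc ∫⁻ x in U, ‖h x - E.indicator ψ x‖ₑ ∂m
        ≤ ∫⁻ x in U, W.indicator (fun x => b * ‖g x - E.indicator (fun _ => 1) x‖ₑ) x ∂m := by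
          refine setLIntegral_mono' hU.measurableSet fun x hx => ?_
          by_cases hxW : x ∈ W
          · rw [indicator_of_mem hxW, (hin x hxW).eq_of_nhds]
            have : g x * ψ x - E.indicator ψ x = ψ x * (g x - E.indicator (fun _ => 1) x) := by
              by_cases hxE : x ∈ E <;> simp [hxE] <;> ring
            rw [this, enorm_mul]
            exact mul_le_mul' (hb x) le_rfl
          · have := (h0 x hx hxW).eq_of_nhds
            rw [(hout x hx hxW).eq_of_nhds]
            by_cases hxE : x ∈ E <;> simp [hxE, this]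
      _ = b * ∫⁻ x in W, ‖g x - E.indicator (fun _ => 1) x‖ₑ ∂m := by
          rw [lintegral_indicator hW.measurableSet, Measure.restrict_restrict hW.measurableSet,
            inter_eq_left.mpr hWU, lintegral_const_mul' _ _ ENNReal.coe_ne_top]
      _ ≤ b * d := mul_le_mul' le_rfl h3
      _ ≤ e := by
          rw [← hde, ← ENNReal.coe_mul, ENNReal.coe_le_coe]
          gcongr
          exact le_add_right (le_add_right le_rfl)
  · calc ∫⁻ x in U, lipa h x ∂m
        ≤ ∫⁻ x in U, W.indicator (fun x => E.indicator (lipa ψ) x +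
            (L * ‖g x - E.indicator (fun _ => 1) x‖ₑ + b * lipa g x)) x ∂m := by
          refine setLIntegral_mono' hU.measurableSet fun x hx => ?_
          by_cases hxW : x ∈ W
          · rw [indicator_of_mem hxW]; exact hlip x hxW
          · rw [lipa_eq_zero (hout x hx hxW)]; exact zero_le
      _ = ∫⁻ x in W, E.indicator (lipa ψ) x ∂m +
            (L * ∫⁻ x in W, ‖g x - E.indicator (fun _ => 1) x‖ₑ ∂m +
              b * ∫⁻ x in W, lipa g x ∂m) := by
          rw [lintegral_indicator hW.measurableSet, Measure.restrict_restrict hW.measurableSet,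
            inter_eq_left.mpr hWU, lintegral_add_left ((measurable_lipa ψ).indicator hE),
            lintegral_add_right _ ((measurable_lipa g).const_mul _),
            lintegral_const_mul' _ _ ENNReal.coe_ne_top,
            lintegral_const_mul' _ _ ENNReal.coe_ne_top]
      _ ≤ ∫⁻ x in E, lipa ψ x ∂m + (L * d + b * (tvOpen m (E.indicator fun _ => 1) W + d)) := by
          refine add_le_add ?_ (add_le_add (mul_le_mul' le_rfl h3) (mul_le_mul' le_rfl h4))
          rw [← lintegral_indicator hE]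
          exact setLIntegral_le_lintegral _ _
      _ = b * tvOpen m (E.indicator fun _ => 1) W + ∫⁻ x in E, lipa ψ x ∂m +
            ((b + L) * d : ℝ≥0) := by
          push_cast; ring
      _ ≤ _ := by
          refine add_le_add le_rfl (ENNReal.coe_le_coe.mpr ?_)
          rw [← hde]
          exact mul_le_mul' (le_add_right le_rfl) le_rfl

end Pool.Agent.Lib.MP_2a341d_an
end

-- part Pool.Agent.Lib.MP_2a341d_an.Trace
section

/-! The trace inequality for quasiminimal sets and the bound for the zero extension. -/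

namespace Pool.Agent.Lib.MP_2a341d_an

open MeasureTheory Metric Set Filter Topology
open scoped ENNReal NNReal

set_option linter.unusedSectionVars false

variable {X : Type*} [MetricSpace X] [MeasurableSpace X] [BorelSpace X] [ProperSpace X]
  {m : Measure X} [IsLocallyFiniteMeasure m] {K : ℝ≥0} {E V S : Set X} {f : X → ℝ}

theorem le_mul_of_forall_pos {K : ℝ≥0} {a b : ℝ≥0∞}
    (h : ∀ e : ℝ≥0, 0 < e → a ≤ K * (b + e)) : a ≤ K * b := by
  refine ENNReal.le_of_forall_pos_le_add fun e he _ => ?_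
  refine (h (e / (K + 1)) (by positivity)).trans ?_
  rw [mul_add, ← ENNReal.coe_mul]
  refine add_le_add le_rfl (ENNReal.coe_le_coe.mpr ?_)
  rw [← mul_div_assoc, div_le_iff₀ (by positivity), mul_comm]
  exact mul_le_mul' le_rfl (le_add_right le_rfl)

/-- An open set in which `E` is quasiminimal and of finite perimeter. -/
structure LocData (m : Measure X) (K : ℝ≥0) (E V : Set X) : Prop where
  meas : MeasurableSet E
  isOpen : IsOpen V
  fin : m V ≠ ∞
  perfin : tvOpen m (E.indicator fun _ => 1) V ≠ ∞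
  qm : ∀ U, IsOpen U → CptIn U V → ∀ G, MeasurableSet G → CptIn G U →
    tvOpen m (E.indicator fun _ => 1) U ≤ K * tvOpen m ((E \ G).indicator fun _ => 1) U

/-- A non-negative cut-off with compact support in `V`. -/
structure Bump (f : X → ℝ) (S V : Set X) : Prop where
  good : Good f
  nonneg : ∀ x, 0 ≤ f x
  cpt : IsCompact S
  sub : S ⊆ V
  zero : ∀ x, x ∉ S → f x = 0

/-- The perimeter in a superlevel set. -/
noncomputable def lev (m : Measure X) (E V : Set X) (f : X → ℝ) (t : ℝ) : ℝ≥0∞ :=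
  tvOpen m (E.indicator fun _ => 1) (V ∩ {x | t < f x})

theorem lev_antitone : Antitone (lev m E V f) := fun _ _ h =>
  tvOpen_mono (inter_subset_inter_right _ fun _ hx => lt_of_le_of_lt h hx)

theorem lev_le (t : ℝ) : lev m E V f t ≤ tvOpen m (E.indicator fun _ => 1) V :=
  tvOpen_mono inter_subset_left

theorem Bump.cptIn (hf : Bump f S V) {s t : ℝ} (hs : 0 < t) (hst : s < t) :
    CptIn (V ∩ {x | t < f x}) (V ∩ {x | s < f x}) := by
  have h1 : closure (V ∩ {x | t < f x}) ⊆ S ∩ {x | t ≤ f x} := by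
    refine closure_minimal (fun x hx => ⟨?_, show t ≤ f x from le_of_lt hx.2⟩)
      (hf.cpt.isClosed.inter (isClosed_le continuous_const hf.good.continuous))
    by_contra h
    have := hf.zero x h
    have h2 : t < f x := hx.2
    linarith
  exact ⟨hf.cpt.of_isClosed_subset isClosed_closure (h1.trans inter_subset_left),
    fun x hx => ⟨hf.sub (h1 hx).1, lt_of_lt_of_le hst (h1 hx).2⟩⟩

/-- The energy of `f` between two levels. -/
noncomputable def slab (m : Measure X) (E : Set X) (f : X → ℝ) (d t : ℝ) : ℝ≥0∞ :=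
  ∫⁻ x in E, {p : ℝ × X | p.1 ≤ f p.2 ∧ f p.2 ≤ p.1 + d}.indicator (fun p => lipa f p.2) (t, x) ∂m

theorem lipa_layer_le (hf : Good f) {φ : ℝ → ℝ} {L : ℝ≥0} (hφ : LipschitzWith L φ) {t d a b : ℝ}
    (h1 : ∀ y < t, φ y = a) (h2 : ∀ y, t + d < y → φ y = b) (x : X) :
    lipa (fun y => φ (f y)) x ≤
      L * {p : ℝ × X | p.1 ≤ f p.2 ∧ f p.2 ≤ p.1 + d}.indicator (fun p => lipa f p.2) (t, x) := by
  rcases lt_or_ge (f x) t with h | h
  · rw [lipa_eq_zero (c := a)]
    · exact zero_le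
    filter_upwards [hf.continuous.continuousAt.eventually (gt_mem_nhds h)] with y hy
    exact h1 _ hy
  rcases lt_or_ge (t + d) (f x) with h' | h'
  · rw [lipa_eq_zero (c := b)]
    · exact zero_le
    filter_upwards [hf.continuous.continuousAt.eventually (lt_mem_nhds h')] with y hy
    exact h2 _ hy
  rw [indicator_of_mem (show (t, x) ∈ {p : ℝ × X | p.1 ≤ f p.2 ∧ f p.2 ≤ p.1 + d} from ⟨h, h'⟩)]
  exact lipa_comp_le hφ (hf.ne_top x)

theorem cut_step (hE : LocData m K E V) (hf : Bump f S V) {s t : ℝ} {d : ℝ≥0}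
    (hd : 0 < d) {c : ℝ≥0∞} (hc : lev m E V f s ≤ lev m E V f (t + 2 * d) + c)
    (hst : s < t) :
    ∃ v : X → ℝ, Measurable v ∧
      ∫⁻ x in V ∩ {x | s < f x}, ‖v x - (E \ (V ∩ {x | t < f x})).indicator (fun _ => 1) x‖ₑ ∂m ≤
        m (V ∩ {x | t < f x ∧ f x < t + d}) ∧
      Ap m v (V ∩ {x | s < f x}) (c + (d⁻¹ : ℝ≥0) * slab m E f d t) := by
  have hd' : (0 : ℝ) < d := hd
  have hcont := hf.good.continuous
  set φ : ℝ → ℝ := fun y => clamp 1 ((t + d - y) / d) with hφ
  have hφL : LipschitzWith d⁻¹ φ := by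
    have : LipschitzWith d⁻¹ fun y : ℝ => (t + d - y) / d := by
      refine LipschitzWith.of_dist_le_mul fun y z => le_of_eq ?_
      rw [Real.dist_eq, Real.dist_eq, ← sub_div, abs_div, abs_of_pos hd', NNReal.coe_inv,
        show t + d - y - (t + d - z) = -(y - z) by ring, abs_neg, div_eq_inv_mul]
    have h := (lipschitz_clamp 1).comp this
    rw [one_mul] at h
    exact h
  have hφ1 : ∀ y ≤ t, φ y = 1 := fun y hy =>
    clamp_of_ge zero_le_one (by rw [le_div_iff₀ hd']; linarith)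
  have hφ0 : ∀ y, t + d ≤ y → φ y = 0 := fun y hy =>
    clamp_of_nonpos (div_nonpos_of_nonpos_of_nonneg (by linarith) hd'.le)
  have hU : IsOpen (V ∩ {x | s < f x}) := hE.isOpen.inter (isOpen_lt continuous_const hcont)
  have hW : IsOpen ((V ∩ {x | s < f x}) ∩ {x | f x < t + 2 * d}) :=
    hU.inter (isOpen_lt hcont continuous_const)
  have hψ : Good fun x => φ (f x) := hf.good.comp hφL
  have hb : ∀ x, ‖φ (f x)‖ₑ ≤ (1 : ℝ≥0) := fun x => by
    rw [← ofReal_norm, ENNReal.coe_one, ENNReal.ofReal_le_one, Real.norm_eq_abs,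
      abs_of_nonneg (clamp_nonneg _ _)]
    exact clamp_le zero_le_one _
  have hsub : (V ∩ {x | s < f x}) ∩ {x | f x < t + 2 * d} ⊆ V :=
    inter_subset_left.trans inter_subset_left
  have hap := ap_indicator_mul hE.meas hU hW inter_subset_left
    (ne_top_of_le_ne_top hE.fin (measure_mono hsub))
    (ne_top_of_le_ne_top hE.perfin (tvOpen_mono hsub)) hψ hb (by
      intro x hx hx'
      have h1 : t + d < f x := by
        have : ¬ f x < t + 2 * d := fun h => hx' ⟨hx, h⟩
        linarith [not_lt.mp this]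
      filter_upwards [hcont.continuousAt.eventually (lt_mem_nhds h1)] with y hy
      exact hφ0 _ hy.le)
  refine ⟨_, hψ.continuous.measurable.indicator hE.meas, ?_, hap.mono (add_le_add ?_ ?_)⟩
  · have hms : MeasurableSet (V ∩ {x | t < f x ∧ f x < t + d}) :=
      (hE.isOpen.inter ((isOpen_lt continuous_const hcont).inter
        (isOpen_lt hcont continuous_const))).measurableSet
    rw [← lintegral_indicator_one hms]
    refine le_trans (setLIntegral_mono' hU.measurableSet fun x hx => ?_)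
      (setLIntegral_le_lintegral _ _)
    by_cases hxE : x ∈ E
    · rcases le_or_gt (f x) t with h | h
      · rw [indicator_of_mem hxE, hφ1 _ h, indicator_of_mem
          (show x ∈ E \ (V ∩ {x | t < f x}) from ⟨hxE, fun h' => absurd h'.2 (not_lt.mpr h)⟩)]
        simp
      · rw [indicator_of_mem hxE, indicator_of_notMem
          (show x ∉ E \ (V ∩ {x | t < f x}) from fun h' => h'.2 ⟨hx.1, h⟩), sub_zero]
        rcases lt_or_ge (f x) (t + d) with h' | h'
        · rw [indicator_of_mem (show x ∈ V ∩ {x | t < f x ∧ f x < t + d} from ⟨hx.1, h, h'⟩)]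
          simpa using hb x
        · rw [hφ0 _ h']; simp
    · rw [indicator_of_notMem hxE, indicator_of_notMem fun h => hxE h.1]
      simp
  · rw [ENNReal.coe_one, one_mul]
    have h1 := tvOpen_add_le (m := m) (u := E.indicator fun _ => 1)
      (A := (V ∩ {x | s < f x}) ∩ {x | f x < t + 2 * d}) (B := V ∩ {x | t + 2 * d < f x})
      (hE.isOpen.inter (isOpen_lt continuous_const hcont)).measurableSet
      (disjoint_left.mpr fun x hx hx' => lt_asymm (show f x < t + 2 * d from hx.2) hx'.2)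
    have h2 : tvOpen m (E.indicator fun _ => 1) (((V ∩ {x | s < f x}) ∩ {x | f x < t + 2 * d}) ∪
        (V ∩ {x | t + 2 * d < f x})) ≤ lev m E V f s :=
      tvOpen_mono (union_subset inter_subset_left fun x hx =>
        ⟨hx.1, show s < f x by have : t + 2 * d < f x := hx.2; linarith⟩)
    have h3 := (h1.trans h2).trans hc
    rw [add_comm] at h3
    exact (ENNReal.add_le_add_iff_left (ne_top_of_le_ne_top hE.perfin (lev_le _))).mp h3
  · rw [slab, ← lintegral_const_mul' _ _ ENNReal.coe_ne_top]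
    exact lintegral_mono fun x => lipa_layer_le hf.good hφL (fun y hy => hφ1 y hy.le)
      (fun y hy => hφ0 y hy.le) x

theorem lev_le_liminf (hK : K ≠ 0) (hE : LocData m K E V) (hf : Bump f S V) {t : ℝ} (ht : 0 < t)
    (hc : ContinuousAt (fun t => (lev m E V f t).toReal) t) :
    lev m E V f t ≤ K * liminf
      (fun k : ℕ => ((k + 1 : ℝ≥0) : ℝ≥0∞) * slab m E f ((k + 1 : ℝ≥0)⁻¹ : ℝ≥0) t) atTop := by
  set L := liminf (fun k : ℕ => ((k + 1 : ℝ≥0) : ℝ≥0∞) * slab m E f ((k + 1 : ℝ≥0)⁻¹ : ℝ≥0) t) atTop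
    with hL
  rcases eq_or_ne L ∞ with hL0 | hL0
  · rw [hL0, ENNReal.mul_top (by exact_mod_cast hK)]; exact le_top
  have hcont := hf.good.continuous
  have hfin : ∀ t, lev m E V f t ≠ ∞ := fun t => ne_top_of_le_ne_top hE.perfin (lev_le _)
  refine le_mul_of_forall_pos fun e he => ?_
  obtain ⟨r, hr, hr1⟩ := Metric.continuousAt_iff.mp hc (e / 2) (by positivity)
  set s := t - min r t / 2 with hs
  have hm0 : 0 < min r t := lt_min hr ht
  have hs0 : 0 < s := by have := min_le_right r t; linarith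
  have hst : s < t := by linarith
  have hU : IsOpen (V ∩ {x | s < f x}) := hE.isOpen.inter (isOpen_lt continuous_const hcont)
  have hG : MeasurableSet (V ∩ {x | t < f x}) :=
    (hE.isOpen.inter (isOpen_lt continuous_const hcont)).measurableSet
  have hUV : CptIn (V ∩ {x | s < f x}) V :=
    ⟨(hf.cptIn hs0 (half_lt_self hs0)).1, (hf.cptIn hs0 (half_lt_self hs0)).2.trans
      inter_subset_left⟩
  refine (lev_antitone hst.le).trans ((hE.qm _ hU hUV _ hG (hf.cptIn ht hst)).trans
    (mul_le_mul' le_rfl (Ap.tvOpen_le (Ap.limit fun e' he' => ?_))))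
  have hinv : Tendsto (fun k : ℕ => (((k + 1 : ℝ≥0)⁻¹ : ℝ≥0) : ℝ)) atTop (𝓝 0) := by
    simpa using tendsto_one_div_add_atTop_nhds_zero_nat (𝕜 := ℝ)
  have h1 : ∀ᶠ k : ℕ in atTop, (((k + 1 : ℝ≥0)⁻¹ : ℝ≥0) : ℝ) < r / 2 :=
    hinv.eventually (gt_mem_nhds (by positivity))
  have h2 : ∀ᶠ k : ℕ in atTop,
      m (V ∩ {x | t < f x ∧ f x < t + ((k + 1 : ℝ≥0)⁻¹ : ℝ≥0)}) ≤ e' := by
    have h3 := tendsto_measure_iInter_atTop (μ := m)
      (s := fun k : ℕ => V ∩ {x | t < f x ∧ f x < t + ((k + 1 : ℝ≥0)⁻¹ : ℝ≥0)})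
      (fun k => (hE.isOpen.inter ((isOpen_lt continuous_const hcont).inter
        (isOpen_lt hcont continuous_const))).measurableSet.nullMeasurableSet)
      (fun a b hab x hx => ⟨hx.1, hx.2.1, hx.2.2.trans_le (by
        gcongr)⟩)
      ⟨0, ne_top_of_le_ne_top hE.fin (measure_mono inter_subset_left)⟩
    have h4 : ⋂ k : ℕ, V ∩ {x | t < f x ∧ f x < t + ((k + 1 : ℝ≥0)⁻¹ : ℝ≥0)} = ∅ := by
      refine eq_empty_of_forall_notMem fun x hx => ?_
      rw [mem_iInter] at hx
      have h5 : f x - t ≤ 0 := ge_of_tendsto' hinv fun k => by linarith [(hx k).2.2]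
      linarith [(hx 0).2.1]
    rw [h4, measure_empty] at h3
    exact h3.eventually (ge_mem_nhds (by exact_mod_cast he'))
  have h3 := frequently_lt_of_liminf_lt (h := ENNReal.lt_add_right hL0
    (show (e' : ℝ≥0∞) ≠ 0 by exact_mod_cast he'.ne'))
  obtain ⟨k, hk3, hk1, hk2⟩ := (h3.and_eventually (h1.and h2)).exists
  obtain ⟨v, hv1, hv2, hv3⟩ := cut_step hE hf (s := s) (t := t) (d := (k + 1 : ℝ≥0)⁻¹)
    (by positivity) (c := e) (by
      have a1 := hr1 (x := s) (by
        rw [Real.dist_eq, abs_sub_comm, abs_of_pos (by linarith)]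
        have := min_le_left r t; linarith)
      have a2 := hr1 (x := t + 2 * ((k + 1 : ℝ≥0)⁻¹ : ℝ≥0)) (by
        rw [Real.dist_eq, add_sub_cancel_left, abs_of_nonneg (by positivity)]; linarith)
      rw [Real.dist_eq, abs_lt] at a1 a2
      rw [← ENNReal.toReal_le_toReal (hfin _) (ENNReal.add_ne_top.mpr ⟨hfin _, ENNReal.coe_ne_top⟩),
        ENNReal.toReal_add (hfin _) ENNReal.coe_ne_top, ENNReal.coe_toReal]
      linarith [a1.2, a2.1]) hst
  refine ⟨v, (hv1.sub (measurable_const.indicator (hE.meas.diff hG))).aemeasurable,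
    hv2.trans hk2, hv3.mono ?_⟩
  rw [inv_inv, add_comm L, add_assoc]
  exact add_le_add le_rfl hk3.le

theorem measurable_slab_fun (hf : Good f) (d : ℝ) : Measurable
    ({p : ℝ × X | p.1 ≤ f p.2 ∧ f p.2 ≤ p.1 + d}.indicator fun p => lipa f p.2) := by
  have hc : Measurable fun p : ℝ × X => f p.2 := hf.continuous.measurable.comp measurable_snd
  exact ((measurable_lipa f).comp measurable_snd).indicator
    ((measurableSet_le measurable_fst hc).inter
      (measurableSet_le hc (measurable_fst.add_const d)))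

theorem lintegral_slab (hf : Good f) (d : ℝ≥0) :
    ∫⁻ t, slab m E f d t = d * ∫⁻ x in E, lipa f x ∂m := by
  unfold slab
  rw [lintegral_lintegral_swap (f := fun t x =>
      {p : ℝ × X | p.1 ≤ f p.2 ∧ f p.2 ≤ p.1 + d}.indicator (fun p => lipa f p.2) (t, x))
      (measurable_slab_fun hf d).aemeasurable,
    ← lintegral_const_mul' _ _ ENNReal.coe_ne_top]
  refine lintegral_congr fun x => ?_
  have : ∀ t : ℝ, {p : ℝ × X | p.1 ≤ f p.2 ∧ f p.2 ≤ p.1 + d}.indicator (fun p => lipa f p.2) (t, x)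
      = (Icc (f x - d) (f x)).indicator (fun _ => lipa f x) t := by
    intro t
    by_cases h : t ∈ Icc (f x - d) (f x)
    · rw [indicator_of_mem h, indicator_of_mem]
      exact ⟨h.2, by linarith [h.1]⟩
    · rw [indicator_of_notMem h, indicator_of_notMem]
      exact fun h' => h ⟨by linarith [h'.2], h'.1⟩
  simp only [this]
  rw [lintegral_indicator_const measurableSet_Icc, Real.volume_Icc, sub_sub_cancel,
    ENNReal.ofReal_coe_nnreal, mul_comm]

theorem trace_ineq (hK : K ≠ 0) (hE : LocData m K E V) (hf : Bump f S V) :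
    ∫⁻ t in Ioi 0, lev m E V f t ≤ K * ∫⁻ x in E, lipa f x ∂m := by
  have hanti : Antitone fun t => (lev m E V f t).toReal := fun a b hab =>
    ENNReal.toReal_mono (ne_top_of_le_ne_top hE.perfin (lev_le _)) (lev_antitone hab)
  have hae : ∀ᵐ t : ℝ, ContinuousAt (fun t => (lev m E V f t).toReal) t :=
    hanti.countable_not_continuousAt.measure_zero _
  calc ∫⁻ t in Ioi 0, lev m E V f t
      ≤ ∫⁻ t in Ioi 0, K * liminf (fun k : ℕ =>
          ((k + 1 : ℝ≥0) : ℝ≥0∞) * slab m E f ((k + 1 : ℝ≥0)⁻¹ : ℝ≥0) t) atTop := by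
        refine lintegral_mono_ae ?_
        filter_upwards [ae_restrict_mem measurableSet_Ioi, ae_restrict_of_ae hae] with t h1 h2
        exact lev_le_liminf hK hE hf h1 h2
    _ ≤ K * ∫⁻ t, liminf (fun k : ℕ =>
          ((k + 1 : ℝ≥0) : ℝ≥0∞) * slab m E f ((k + 1 : ℝ≥0)⁻¹ : ℝ≥0) t) atTop := by
        rw [← lintegral_const_mul' _ _ ENNReal.coe_ne_top]
        exact setLIntegral_le_lintegral _ _
    _ ≤ K * liminf (fun k : ℕ => ∫⁻ t,
          ((k + 1 : ℝ≥0) : ℝ≥0∞) * slab m E f ((k + 1 : ℝ≥0)⁻¹ : ℝ≥0) t) atTop :=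
        mul_le_mul' le_rfl (lintegral_liminf_le fun k =>
          ((measurable_slab_fun hf.good _).lintegral_prod_right').const_mul _)
    _ = K * ∫⁻ x in E, lipa f x ∂m := by
        congr 1
        have : ∀ k : ℕ, ∫⁻ t, ((k + 1 : ℝ≥0) : ℝ≥0∞) * slab m E f ((k + 1 : ℝ≥0)⁻¹ : ℝ≥0) t =
            ∫⁻ x in E, lipa f x ∂m := by
          intro k
          rw [lintegral_const_mul' _ _ ENNReal.coe_ne_top, lintegral_slab hf.good, ← mul_assoc,
            ← ENNReal.coe_mul, mul_inv_cancel₀ (by positivity), ENNReal.coe_one, one_mul]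
        simp only [this]
        exact liminf_const _

theorem sum_lev_le {Q : ℝ → ℝ≥0∞} (hQ : Antitone Q) (d : ℝ≥0) (N : ℕ) :
    ∑ k ∈ Finset.range N, d * Q ((k + 1) * d) ≤ ∫⁻ t in Ioc 0 (N * d : ℝ), Q t := by
  induction N with
  | zero => simp
  | succ N ih =>
    have hd : (0 : ℝ) ≤ d := d.2
    rw [Finset.sum_range_succ, ← Ioc_union_Ioc_eq_Ioc (b := (N * d : ℝ)) (by positivity)
      (by push_cast; nlinarith), lintegral_union measurableSet_Ioc Ioc_disjoint_Ioc_of_le_aux]
    refine add_le_add ih ?_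
    calc (d : ℝ≥0∞) * Q ((N + 1) * d) = ∫⁻ _ in Ioc (N * d : ℝ) ((N + 1 : ℕ) * d), Q ((N + 1) * d) := by
          rw [setLIntegral_const, Real.volume_Ioc, mul_comm]
          push_cast
          rw [show ((N : ℝ) + 1) * d - N * d = d by ring, ENNReal.ofReal_coe_nnreal]
      _ ≤ _ := setLIntegral_mono' measurableSet_Ioc fun t ht => hQ (by simpa using ht.2)
where
  Ioc_disjoint_Ioc_of_le_aux {a b c : ℝ} : Disjoint (Ioc a b) (Ioc b c) :=
    Ioc_disjoint_Ioc_of_le le_rfl

theorem sum_layer (d : ℝ≥0) (N : ℕ) {y : ℝ} (hy : 0 ≤ y) :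
    ∑ k ∈ Finset.range N, clamp d (y - k * d) = min y (N * d) := by
  have hd : (0 : ℝ) ≤ d := d.2
  induction N with
  | zero => simp [hy]
  | succ N ih =>
    rw [Finset.sum_range_succ, ih]
    push_cast
    rcases le_total y (N * d) with h | h
    · rw [min_eq_left h, clamp_of_nonpos (by linarith), min_eq_left (by linarith), add_zero]
    · rw [min_eq_right h]
      rcases le_total y ((N + 1) * d) with h' | h'
      · rw [clamp_of_mem (by linarith) (by linarith), min_eq_left h']; ring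
      · rw [clamp_of_ge hd (by linarith), min_eq_right h']; ring

theorem sum_indicator_le (d : ℝ≥0) (hd : 0 < d) (N : ℕ) (y : ℝ) (a : ℝ≥0∞) :
    ∑ k ∈ Finset.range N, (if (k : ℝ) * d ≤ y ∧ y ≤ k * d + d then a else 0) ≤ 2 * a := by
  have hd' : (0 : ℝ) < d := hd
  rw [← Finset.sum_filter, Finset.sum_const, nsmul_eq_mul]
  refine mul_le_mul' ?_ le_rfl
  have : ((Finset.range N).filter fun k : ℕ => (k : ℝ) * d ≤ y ∧ y ≤ k * d + d) ⊆
      {⌊y / d⌋₊, ⌊y / d⌋₊ - 1} := by
    intro k hk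
    obtain ⟨-, h1, h2⟩ := Finset.mem_filter.mp hk
    have a1 : k ≤ ⌊y / d⌋₊ := Nat.le_floor (by rwa [le_div_iff₀ hd'])
    have a2 : ⌊y / d⌋₊ ≤ k + 1 := Nat.floor_le_of_le (by
      rw [div_le_iff₀ hd']; push_cast; linarith)
    simp only [Finset.mem_insert, Finset.mem_singleton]
    omega
  exact_mod_cast (Finset.card_le_card this).trans Finset.card_le_two

theorem ap_of_bump (hK : K ≠ 0) (hE : LocData m K E V) (hf : Bump f S V) :
    Ap m (E.indicator f) univ ((K + 2) * ∫⁻ x in E, lipa f x ∂m) := by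
  refine Ap.limit fun e he => ⟨E.indicator f, by simp, by simp, ?_⟩
  have hcont := hf.good.continuous
  obtain ⟨P, hP⟩ : ∃ P : ℝ≥0, tvOpen m (E.indicator fun _ => 1) V = P :=
    ⟨_, (ENNReal.coe_toNNReal hE.perfin).symm⟩
  set d : ℝ≥0 := e / (2 * P + 1) with hd
  have hd0 : 0 < d := by positivity
  have hd' : (0 : ℝ) < d := hd0
  obtain ⟨L, hL⟩ := id hf.good
  obtain ⟨N, hN⟩ := exists_nat_ge ((L : ℝ) / d)
  have hφ : ∀ k : ℕ, LipschitzWith 1 fun y : ℝ => clamp d (y - k * d) := fun k => by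
    have h := (lipschitz_clamp d).comp (LipschitzWith.id.sub (LipschitzWith.const (k * d : ℝ)))
    rw [add_zero, one_mul] at h
    exact h
  have hsum : E.indicator f =
      fun x => ∑ k ∈ Finset.range (N + 2), E.indicator (fun y => clamp d (f y - k * d)) x := by
    funext x
    by_cases hx : x ∈ E
    · simp only [indicator_of_mem hx]
      rw [sum_layer d _ (hf.nonneg x), min_eq_left]
      have h1 : ‖f x‖ ≤ L := by
        have := (hL x).2
        rwa [enorm_eq_nnnorm, ENNReal.coe_le_coe] at this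
      rw [div_le_iff₀ hd'] at hN
      have := le_abs_self (f x)
      rw [Real.norm_eq_abs] at h1
      push_cast
      nlinarith
    · simp [indicator_of_notMem hx]
  rw [hsum]
  refine (Ap.sum isOpen_univ _ _ (fun k : ℕ => d * lev m E V f ((k - 1) * d) +
      ∫⁻ x in E, lipa (fun y => clamp d (f y - k * d)) x ∂m)
    (fun k _ => ((hf.good.comp (hφ k)).continuous.measurable).indicator hE.meas)
    (fun k _ => ?_)).mono ?_
  · refine ap_indicator_mul hE.meas isOpen_univ
      (hE.isOpen.inter (isOpen_lt continuous_const hcont)) (subset_univ _)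
      (ne_top_of_le_ne_top hE.fin (measure_mono inter_subset_left))
      (ne_top_of_le_ne_top hE.perfin (lev_le _)) (hf.good.comp (hφ k)) (fun x => ?_) ?_
    · rw [← ofReal_norm, ← ENNReal.ofReal_coe_nnreal, Real.norm_eq_abs,
        abs_of_nonneg (clamp_nonneg _ _)]
      exact ENNReal.ofReal_le_ofReal (clamp_le hd'.le _)
    · intro x _ hx
      by_cases hxV : x ∈ V
      · have h1 : f x < k * d := by
          have : ¬ ((k : ℝ) - 1) * d < f x := fun h => hx ⟨hxV, h⟩
          linarith [not_lt.mp this]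
        filter_upwards [hcont.continuousAt.eventually (gt_mem_nhds h1)] with y hy
        exact clamp_of_nonpos (by linarith)
      · filter_upwards [hf.cpt.isClosed.isOpen_compl.mem_nhds fun h => hxV (hf.sub h)] with y hy
        rw [hf.zero y hy]
        exact clamp_of_nonpos (by simp only [zero_sub, Left.neg_nonpos_iff]; positivity)
  rw [Finset.sum_add_distrib, Finset.sum_range_succ', Finset.sum_range_succ', add_mul]
  have b1 : ∑ k ∈ Finset.range N, d * lev m E V f ((((k + 1 + 1 : ℕ) : ℝ) - 1) * d) ≤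
      K * ∫⁻ x in E, lipa f x ∂m := by
    refine le_trans (le_of_eq ?_) ((sum_lev_le lev_antitone d N).trans
      ((lintegral_mono_set Ioc_subset_Ioi_self).trans (trace_ineq hK hE hf)))
    refine Finset.sum_congr rfl fun k _ => ?_
    push_cast
    rw [add_sub_cancel_right]
  have b2 : ∑ k ∈ Finset.range (N + 2), ∫⁻ x in E, lipa (fun y => clamp d (f y - k * d)) x ∂m ≤
      2 * ∫⁻ x in E, lipa f x ∂m := by
    rw [← lintegral_finsetSum _ fun k _ => measurable_lipa _,
      ← lintegral_const_mul' _ _ (by norm_num)]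
    refine lintegral_mono fun x => le_trans (Finset.sum_le_sum fun k _ => ?_)
      (sum_indicator_le d hd0 (N + 2) (f x) (lipa f x))
    have := lipa_layer_le hf.good (hφ k) (t := k * d) (d := d) (a := 0) (b := d)
      (fun y hy => clamp_of_nonpos (by linarith)) (fun y hy => clamp_of_ge hd'.le (by linarith)) x
    simpa [indicator] using this
  have b3 : ∀ t, (d : ℝ≥0∞) * lev m E V f t ≤ d * P := fun t => mul_le_mul' le_rfl (hP ▸ lev_le t)
  have b4 : (d : ℝ≥0∞) * P + d * P ≤ e := by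
    rw [← ENNReal.coe_mul, ← ENNReal.coe_add, ENNReal.coe_le_coe, hd, ← mul_add,
      div_mul_eq_mul_div, div_le_iff₀ (by positivity), ← two_mul]
    exact mul_le_mul' le_rfl (le_add_right le_rfl)
  calc _ ≤ K * ∫⁻ x in E, lipa f x ∂m + d * P + d * P + 2 * ∫⁻ x in E, lipa f x ∂m :=
        add_le_add (add_le_add (add_le_add b1 (b3 _)) (b3 _)) b2
    _ = K * ∫⁻ x in E, lipa f x ∂m + 2 * ∫⁻ x in E, lipa f x ∂m + (d * P + d * P) := by ring
    _ ≤ _ := add_le_add le_rfl b4

end Pool.Agent.Lib.MP_2a341d_an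
end

-- part Pool.Agent.Lib.MP_2a341d_an.Iso
section

/-! Relative isoperimetric inequalities. -/

namespace Pool.Agent.Lib.MP_2a341d_an

open MeasureTheory Metric Set Filter Topology
open scoped ENNReal NNReal

set_option linter.unusedSectionVars false

variable {X : Type*} [MetricSpace X] [MeasurableSpace X] [BorelSpace X] [ProperSpace X]
  {m : Measure X} [IsLocallyFiniteMeasure m] {K D C : ℝ≥0} {l : ℝ} {E V : Set X}

/-- The Poincare inequality with given constants. -/
def PoinWith (m : Measure X) (C : ℝ≥0) (l : ℝ) : Prop :=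
  ∀ (f : X → ℝ) (g : X → ℝ≥0∞) (x : X) (r : ℝ), 0 < r →
    LocallyIntegrable f m → IsUpperGradient f g →
      ∫⁻ y in ball x r, ‖f y - ⨍ z in ball x r, f z ∂m‖ₑ ∂m ≤
        C * ENNReal.ofReal r * ∫⁻ y in ball x (l * r), g y ∂m

theorem le_lintegral_indicator_sub {B : Set X} (hE : MeasurableSet E)
    (hfin : m B ≠ ∞) (h : 2 * m (E ∩ B) ≤ m B) (a : ℝ) :
    m (E ∩ B) ≤ ∫⁻ x in B, ‖E.indicator (fun _ => (1 : ℝ)) x - a‖ₑ ∂m := by
  have h1 : m (E ∩ B) ≤ m (B \ E) := by
    rw [two_mul, ← measure_inter_add_sdiff B hE, inter_comm B E] at h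
    exact (ENNReal.add_le_add_iff_left
      (ne_top_of_le_ne_top hfin (measure_mono inter_subset_right))).mp h
  have h2 : ∫⁻ x in B, ‖E.indicator (fun _ => (1 : ℝ)) x - a‖ₑ ∂m =
      ‖1 - a‖ₑ * m (E ∩ B) + ‖a‖ₑ * m (B \ E) := by
    rw [← lintegral_add_compl _ hE, Measure.restrict_restrict hE,
      Measure.restrict_restrict hE.compl, sdiff_eq, inter_comm B, ← setLIntegral_const,
      ← setLIntegral_const, ← Measure.restrict_restrict hE, ← Measure.restrict_restrict hE.compl]
    congr 1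
    · exact setLIntegral_congr_fun hE fun x hx => by simp [hx]
    · exact setLIntegral_congr_fun hE.compl fun x hx => by
        simp [indicator_of_notMem (show x ∉ E from hx)]
  rw [h2]
  calc m (E ∩ B) = ‖(1 - a) + a‖ₑ * m (E ∩ B) := by simp
    _ ≤ (‖1 - a‖ₑ + ‖a‖ₑ) * m (E ∩ B) := mul_le_mul' (enorm_add_le _ _) le_rfl
    _ ≤ _ := by
        rw [add_mul]
        exact add_le_add le_rfl (mul_le_mul' le_rfl h1)

theorem poincare_set (hP : PoinWith m C l) (hC : 0 < C) (hl : 1 ≤ l) (hE : MeasurableSet E)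
    (y : X) {ρ : ℝ} (hρ : 0 < ρ) (h : 2 * m (E ∩ ball y ρ) ≤ m (ball y ρ)) :
    m (E ∩ ball y ρ) ≤
      C * ENNReal.ofReal ρ * tvOpen m (E.indicator fun _ => 1) (ball y (2 * l * ρ)) := by
  rcases eq_or_ne (tvOpen m (E.indicator fun _ => 1) (ball y (2 * l * ρ))) ∞ with hT | hT
  · rw [hT, ENNReal.mul_top (mul_ne_zero (by exact_mod_cast hC.ne') (by simpa using hρ))]
    exact le_top
  lift ρ to ℝ≥0 using hρ.le
  rw [ENNReal.ofReal_coe_nnreal]
  refine ENNReal.le_of_forall_pos_le_add fun e he _ => ?_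
  have he' : 0 < e / (1 + C * ρ) := by positivity
  obtain ⟨g, h1, -, h2, h3⟩ := exists_approx_indicator isOpen_ball measure_ball_lt_top.ne hT he'
  have hlρ : (ρ : ℝ) ≤ l * ρ := le_mul_of_one_le_left hρ.le hl
  have hsub : closedBall y (l * ρ) ⊆ ball y (2 * l * ρ) := closedBall_subset_ball (by linarith)
  obtain ⟨g', ⟨L, hL⟩, h4, h5⟩ := exists_good_extension (isCompact_closedBall y (l * ρ)) hsub h1
  have h6 := hP g' (lipa g') y ρ hρ hL.continuous.locallyIntegrable (isUpperGradient_lipa hL)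
  rw [ENNReal.ofReal_coe_nnreal, setLIntegral_congr_fun measurableSet_ball (g := lipa g)
    fun x hx => lipa_congr (mem_of_superset (isOpen_ball.mem_nhds hx)
      fun z hz => (h5 (ball_subset_closedBall hz)).symm)] at h6
  have h7 : ∫⁻ x in ball y ρ, ‖E.indicator (fun _ => (1 : ℝ)) x - g' x‖ₑ ∂m ≤
      ((e / (1 + C * ρ) : ℝ≥0) : ℝ≥0∞) := by
    refine le_trans ?_ ((lintegral_mono_set (show ball y ρ ⊆ _ from
      ball_subset_ball (by linarith))).trans h2)
    refine setLIntegral_mono' measurableSet_ball fun x hx => ?_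
    rw [h5 (ball_subset_closedBall (ball_subset_ball hlρ hx)), enorm_sub_rev]
  refine (le_lintegral_indicator_sub hE measure_ball_lt_top.ne h (⨍ z in ball y ρ, g' z ∂m)).trans
    ((lintegral_enorm_sub_le (g := g')
      (hL.continuous.measurable.sub_const _).aemeasurable).trans ?_)
  refine (add_le_add h7 (h6.trans (mul_le_mul' le_rfl
    ((lintegral_mono_set (ball_subset_closedBall.trans hsub)).trans h3)))).trans (le_of_eq ?_)
  have : (e : ℝ≥0∞) = ((e / (1 + C * ρ) : ℝ≥0) : ℝ≥0∞) * (1 + C * ρ) := by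
    rw [← ENNReal.coe_mul, ← ENNReal.coe_one, ← ENNReal.coe_add, ← ENNReal.coe_mul,
      div_mul_cancel₀ _ (by positivity)]
  rw [this]
  ring

theorem exists_stop (hD : ∀ (x : X) (r : ℝ), 0 < r → m (ball x (2 * r)) ≤ D * m (ball x r))
    (hm : m ≠ 0) (hE : IsOpen E) {y : X} (hy : y ∈ E) {ρ : ℝ} (hρ : 0 < ρ)
    (h : 2 * m (E ∩ ball y ρ) ≤ m (ball y ρ)) :
    ∃ r, 0 < r ∧ r ≤ ρ ∧ 2 * m (E ∩ ball y r) ≤ m (ball y r) ∧
      m (ball y r) ≤ 2 * D * m (E ∩ ball y r) := by
  classical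
  have hex : ∃ n : ℕ, m (ball y (ρ / 2 ^ (n + 1))) < 2 * m (E ∩ ball y (ρ / 2 ^ (n + 1))) := by
    obtain ⟨e, he, h1⟩ := Metric.isOpen_iff.mp hE y hy
    obtain ⟨n, hn⟩ := pow_unbounded_of_one_lt (ρ / e) (one_lt_two (α := ℝ))
    refine ⟨n, ?_⟩
    have : ρ / 2 ^ (n + 1) ≤ e := by
      rw [div_lt_iff₀ he] at hn
      rw [div_le_iff₀ (by positivity), pow_succ]
      nlinarith [pow_pos (two_pos (α := ℝ)) n]
    rw [inter_eq_right.mpr ((ball_subset_ball this).trans h1), two_mul]
    exact ENNReal.lt_add_right measure_ball_lt_top.ne (ball_ne_zero hD hm y (by positivity))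
  refine ⟨ρ / 2 ^ Nat.find hex, by positivity,
    div_le_self hρ.le (one_le_pow₀ one_le_two), ?_, ?_⟩
  · rcases hn : Nat.find hex with _ | n
    · simpa using h
    · exact not_lt.mp (Nat.find_min hex (m := n) (by omega))
  · have h1 := Nat.find_spec hex
    have h2 := hD y (ρ / 2 ^ (Nat.find hex + 1)) (by positivity)
    have h3 : 2 * (ρ / 2 ^ (Nat.find hex + 1)) = ρ / 2 ^ Nat.find hex := by
      rw [pow_succ]; field_simp
    rw [h3] at h2
    refine h2.trans ?_
    rw [mul_comm 2, mul_assoc]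
    refine mul_le_mul' le_rfl (h1.le.trans (mul_le_mul' le_rfl (measure_mono
      (inter_subset_inter_right _ (ball_subset_ball ?_)))))
    rw [← h3]
    have : 0 < ρ / 2 ^ (Nat.find hex + 1) := by positivity
    linarith

theorem iso_cover (hD : ∀ (x : X) (r : ℝ), 0 < r → m (ball x (2 * r)) ≤ D * m (ball x r))
    (hm : m ≠ 0) (hP : PoinWith m C l) (hC : 0 < C) (hl : 1 ≤ l) (hE : IsOpen E) {N : ℕ}
    (hN : 8 * l ≤ 2 ^ N) (x : X) (a : ℝ) {ρ : ℝ} (hρ : 0 < ρ)
    (h : ∀ y ∈ E ∩ ball x a, 2 * m (E ∩ ball y ρ) ≤ m (ball y ρ)) :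
    m (E ∩ ball x a) ≤ D ^ N * (2 * D) * C * ENNReal.ofReal ρ *
      tvOpen m (E.indicator fun _ => 1) (ball x (a + 2 * l * ρ)) := by
  choose! r hr0 hr1 hr2 hr3 using fun y (hy : y ∈ E ∩ ball x a) =>
    exists_stop hD hm hE hy.1 hρ (h y hy)
  have hl0 : 0 < l := by linarith
  obtain ⟨u, hu, hd, hc⟩ := Vitali.exists_disjoint_subfamily_covering_enlargement_ball
    (E ∩ ball x a) id (fun y => 2 * l * r y) (2 * l * ρ)
    (fun y hy => mul_le_mul_of_nonneg_left (hr1 y hy) (by positivity)) 4 (by norm_num)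
  have hcount : u.Countable := hd.countable_of_isOpen (fun _ _ => isOpen_ball)
    fun y hy => nonempty_ball.mpr (by have := hr0 y (hu hy); positivity)
  have hcov : E ∩ ball x a ⊆ ⋃ z ∈ u, ball z (2 ^ N * r z) := by
    intro y hy
    obtain ⟨z, hz, h1⟩ := hc y hy
    refine mem_iUnion₂.mpr ⟨z, hz, ball_subset_ball ?_ (h1 (mem_ball_self
      (by have := hr0 y hy; positivity)))⟩
    have := hr0 z (hu hz)
    nlinarith
  refine (measure_mono hcov).trans ((measure_biUnion_le m hcount _).trans ?_)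
  refine le_trans ?_ (mul_le_mul' le_rfl (tsum_tvOpen_le u (fun z => ball z (2 * l * r z))
    (fun _ _ => measurableSet_ball) hd fun z hz y hy => ?_))
  · rw [← ENNReal.tsum_mul_left]
    refine ENNReal.tsum_le_tsum fun z => ?_
    have hz := hu z.2
    refine (doubling_pow hD N _ (hr0 z hz)).trans ?_
    rw [mul_assoc, mul_assoc, mul_assoc]
    refine mul_le_mul' le_rfl ((hr3 z hz).trans (mul_le_mul' le_rfl
      ((poincare_set hP hC hl hE.measurableSet _ (hr0 z hz) (hr2 z hz)).trans ?_)))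
    rw [mul_assoc]
    exact mul_le_mul' le_rfl (mul_le_mul' (ENNReal.ofReal_le_ofReal (hr1 z hz)) le_rfl)
  · have h1 : dist z x < a := (hu hz).2
    have h2 : dist y z < 2 * l * r z := hy
    have h3 := mul_le_mul_of_nonneg_left (hr1 z (hu hz)) (show 0 ≤ 2 * l by positivity)
    have := dist_triangle y z x
    rw [mem_ball]
    linarith

theorem per_ball_le (hK : K ≠ 0) (hE : LocData m K E V) (x : X) (a : ℝ) {s : ℝ} (hs : 0 < s)
    (hV : closedBall x (a + s) ⊆ V) :
    ENNReal.ofReal s * tvOpen m (E.indicator fun _ => 1) (ball x a) ≤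
      K * m (E ∩ ball x (a + 2 * s)) := by
  set f : X → ℝ := fun y => clamp s (a + s - dist y x) with hf
  have hfL : LipschitzWith 1 f := by
    have h := (lipschitz_clamp s).comp ((LipschitzWith.const (α := X) (a + s)).sub
      (LipschitzWith.dist_left x))
    rw [zero_add, one_mul] at h
    exact h
  have hz : ∀ y, y ∉ closedBall x (a + s) → f y = 0 := fun y hy =>
    clamp_of_nonpos (by have : a + s < dist y x := by simpa using hy
                        linarith)
  have hB : Bump f (closedBall x (a + s)) V :=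
    ⟨good_of_lipschitz hfL (M := s) fun y => by
      rw [abs_of_nonneg (clamp_nonneg _ _)]; exact clamp_le hs.le _,
      fun y => clamp_nonneg _ _, isCompact_closedBall _ _, hV, hz⟩
  refine le_trans ?_ ((trace_ineq hK hE hB).trans (mul_le_mul' le_rfl ?_))
  · refine le_trans ?_ (lintegral_mono_set (show Ioo 0 s ⊆ Ioi 0 from Ioo_subset_Ioi_self))
    have : ENNReal.ofReal s = volume (Ioo 0 s) := by simp
    rw [this, mul_comm, ← setLIntegral_const]
    refine setLIntegral_mono' measurableSet_Ioo fun t ht => tvOpen_mono fun y hy => ?_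
    have h1 : dist y x < a := hy
    refine ⟨hV (show dist y x ≤ a + s by linarith), ?_⟩
    show t < clamp s (a + s - dist y x)
    rw [clamp_of_ge hs.le (by linarith)]
    exact ht.2
  · rw [inter_comm, ← Measure.restrict_apply measurableSet_ball,
      ← lintegral_indicator_one measurableSet_ball]
    refine lintegral_mono fun y => ?_
    by_cases hy : y ∈ ball x (a + 2 * s)
    · rw [indicator_of_mem hy]
      simpa using lipa_le univ_mem hfL.lipschitzOnWith
    · rw [lipa_eq_zero (c := 0)]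
      · exact zero_le
      have : y ∈ (closedBall x (a + s))ᶜ := fun h => hy (closedBall_subset_ball (by linarith) h)
      filter_upwards [isClosed_closedBall.isOpen_compl.mem_nhds this] with z hz' using hz z hz'

end Pool.Agent.Lib.MP_2a341d_an
end

-- part Pool.Agent.Lib.MP_2a341d_an.Null
section

/-! The boundary of an open quasiminimal set is null. -/

namespace Pool.Agent.Lib.MP_2a341d_an

open MeasureTheory Metric Set Filter Topology
open scoped ENNReal NNReal

set_option linter.unusedSectionVars false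

variable {X : Type*} [MetricSpace X] [MeasurableSpace X] [BorelSpace X] [ProperSpace X]
  {m : Measure X} [IsLocallyFiniteMeasure m] {K D C : ℝ≥0} {l : ℝ} {E V : Set X}

theorem iter_step (hD : ∀ (x : X) (r : ℝ), 0 < r → m (ball x (2 * r)) ≤ D * m (ball x r))
    (hD0 : D ≠ 0) (hm : m ≠ 0) (hP : PoinWith m C l) (hC : 0 < C) (hl : 1 ≤ l) (hK : K ≠ 0)
    (hE : IsOpen E) (hV : LocData m K E V) {N j : ℕ} (hN : 8 * l ≤ 2 ^ N) (hj : 16 * l ≤ 2 ^ j)
    (hj' : D * (D ^ N * (2 * D) * C) * 16 * K ≤ 2 ^ j) {x : X} {R : ℝ} (hR : 0 < R)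
    (hx : closedBall x R ⊆ V) (k : ℕ)
    (h : D ^ (j + k + 1) * (2 * m (E ∩ ball x (R / 2 + R / 2 ^ (k + 1)))) ≤ m (ball x R)) :
    D * m (E ∩ ball x (R / 2 + R / 2 ^ (k + 1 + 1))) ≤ m (E ∩ ball x (R / 2 + R / 2 ^ (k + 1))) := by
  set s : ℝ := R / 2 ^ (k + 4) with hs
  have hs0 : 0 < s := by positivity
  have e1 : R / 2 ^ (k + 1) = 8 * s := by rw [hs]; field_simp; ring
  have e2 : R / 2 ^ (k + 1 + 1) = 4 * s := by rw [hs]; field_simp; ring
  have e3 : 16 * s ≤ R := by
    rw [hs, ← mul_div_assoc, div_le_iff₀ (by positivity), pow_add]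
    have : (1 : ℝ) ≤ 2 ^ k := one_le_pow₀ one_le_two
    nlinarith
  set q : ℝ≥0 := 16 / 2 ^ j with hq
  have hq0 : (0 : ℝ) < q := by positivity
  have e4 : l * (q * s) ≤ s := by
    rw [← mul_assoc]
    refine mul_le_of_le_one_left hs0.le ?_
    rw [hq]
    push_cast
    rw [← mul_div_assoc, div_le_one (by positivity)]
    linarith
  have e5 : q * s ≤ l * (q * s) := le_mul_of_one_le_left (by positivity) hl
  have e6 : 2 ^ (j + k + 1) * (q * s) = 2 * R := by
    rw [hq, hs]; push_cast; field_simp; ring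
  rw [e1] at h ⊢
  rw [e2]
  have h1 := iso_cover hD hm hP hC hl hE hN x (R / 2 + 4 * s) (ρ := q * s) (by positivity) (by
    intro y hy
    have hy1 : dist y x < R / 2 + 4 * s := hy.2
    have a1 : m (ball x R) ≤ D ^ (j + k + 1) * m (ball y (q * s)) := by
      refine le_trans (measure_mono fun z hz => ?_) (doubling_pow hD _ y (by positivity))
      have := dist_triangle_right z y x
      have hz1 : dist z x < R := hz
      rw [mem_ball, e6]
      linarith
    have a2 := (ENNReal.mul_le_mul_iff_right (pow_ne_zero _ (by exact_mod_cast hD0))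
      (by simp)).mp (h.trans a1)
    refine le_trans (mul_le_mul' le_rfl (measure_mono (inter_subset_inter_right _
      fun z hz => ?_))) a2
    have := dist_triangle z y x
    have hz1 : dist z y < q * s := hz
    rw [mem_ball]
    linarith)
  have h2 := per_ball_le hK hV x (R / 2 + 4 * s + 2 * l * (q * s)) hs0
    ((closedBall_subset_closedBall (by linarith)).trans hx)
  have h3 : m (E ∩ ball x (R / 2 + 4 * s + 2 * l * (q * s) + 2 * s)) ≤
      m (E ∩ ball x (R / 2 + 8 * s)) :=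
    measure_mono (inter_subset_inter_right _ (ball_subset_ball (by linarith)))
  rw [ENNReal.ofReal_mul hq0.le, ENNReal.ofReal_coe_nnreal, ← mul_assoc, mul_assoc] at h1
  have h4 := h1.trans (mul_le_mul' le_rfl (h2.trans (mul_le_mul' le_rfl h3)))
  refine (mul_le_mul' le_rfl h4).trans ?_
  rw [← mul_assoc, ← mul_assoc]
  refine mul_le_of_le_one_left' ?_
  have h5 : D * (D ^ N * (2 * D) * C * q) * K ≤ 1 := by
    rw [hq, show D * (D ^ N * (2 * D) * C * (16 / 2 ^ j)) * K =
      D * (D ^ N * (2 * D) * C) * 16 * K / 2 ^ j by ring]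
    exact div_le_one_of_le₀ hj' zero_le
  exact_mod_cast h5

theorem density_lower (hD : ∀ (x : X) (r : ℝ), 0 < r → m (ball x (2 * r)) ≤ D * m (ball x r))
    (hD2 : 2 ≤ D) (hm : m ≠ 0) (hP : PoinWith m C l) (hC : 0 < C) (hl : 1 ≤ l) (hK : K ≠ 0)
    (hE : IsOpen E) : ∃ B : ℝ≥0, ∀ V, LocData m K E V → ∀ x ∈ closure E, ∀ R, 0 < R →
      closedBall x R ⊆ V → m (ball x R) ≤ B * m (E ∩ ball x R) := by
  obtain ⟨N, hN⟩ := pow_unbounded_of_one_lt (8 * l) (one_lt_two (α := ℝ))
  obtain ⟨j, hj⟩ := pow_unbounded_of_one_lt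
    (max (16 * l) ((D * (D ^ N * (2 * D) * C) * 16 * K : ℝ≥0) : ℝ)) (one_lt_two (α := ℝ))
  have hD0 : D ≠ 0 := (two_pos.trans_le hD2).ne'
  refine ⟨D ^ (j + 1) * 2, fun V hV x hx R hR hxV => ?_⟩
  by_contra hcon
  have key : ∀ k : ℕ,
      D ^ (j + k + 1) * (2 * m (E ∩ ball x (R / 2 + R / 2 ^ (k + 1)))) ≤ m (ball x R) := by
    intro k
    induction k with
    | zero =>
      have := (not_le.mp hcon).le
      push_cast at this
      simpa [mul_assoc] using this
    | succ k ih =>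
      have h1 := iter_step hD hD0 hm hP hC hl hK hE hV hN.le ((le_max_left _ _).trans hj.le)
        (by exact_mod_cast (le_max_right _ _).trans hj.le) hR hxV k ih
      refine le_trans (le_of_eq ?_) ((mul_le_mul' le_rfl (mul_le_mul' le_rfl h1)).trans ih)
      ring
  obtain ⟨y, hy1, hy2⟩ := mem_closure_iff.mp hx _ isOpen_ball (mem_ball_self (half_pos hR))
  obtain ⟨e, he, h1⟩ := Metric.isOpen_iff.mp (hE.inter isOpen_ball) y ⟨hy2, hy1⟩
  have h2 : m (E ∩ ball x (R / 2)) ≠ 0 := fun h =>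
    ball_ne_zero hD hm y he (measure_mono_null h1 h)
  obtain ⟨n, hn⟩ :=
    ENNReal.exists_nat_mul_gt h2 (measure_ball_lt_top (μ := m) (x := x) (r := R)).ne
  refine absurd (key n) (not_le.mpr (hn.trans_le (mul_le_mul' ?_ ?_)))
  · have h3 : (n : ℝ≥0) ≤ D ^ (j + n + 1) := by
      calc (n : ℝ≥0) ≤ 2 ^ n := by exact_mod_cast Nat.lt_two_pow_self.le
        _ ≤ 2 ^ (j + n + 1) := pow_le_pow_right₀ one_le_two (by omega)
        _ ≤ _ := pow_le_pow_left₀ zero_le hD2 _
    exact_mod_cast h3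
  · rw [two_mul]
    exact le_add_right (measure_mono (inter_subset_inter_right _ (ball_subset_ball
      (le_add_of_nonneg_right (by positivity)))))

theorem boundary_null (hD : ∀ (x : X) (r : ℝ), 0 < r → m (ball x (2 * r)) ≤ D * m (ball x r))
    (hD2 : 2 ≤ D) (hm : m ≠ 0) (hP : PoinWith m C l) (hC : 0 < C) (hl : 1 ≤ l) (hK : K ≠ 0)
    (hE : IsOpen E) (hV : ∀ x, ∃ V, x ∈ V ∧ LocData m K E V) : m (closure E \ E) = 0 := by
  obtain ⟨B, hB⟩ := density_lower hD hD2 hm hP hC hl hK hE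
  have := unifLocDoubling hD
  have h1 := IsUnifLocDoublingMeasure.ae_tendsto_measure_inter_div.{_, 0} m Eᶜ 1
  rw [ae_restrict_iff' hE.measurableSet.compl] at h1
  rw [measure_eq_zero_iff_ae_notMem]
  filter_upwards [h1] with x hx hxE
  have h2 := hx hxE.2 (l := 𝓝[>] (0 : ℝ)) (fun _ => x) id tendsto_id (by
    filter_upwards [self_mem_nhdsWithin] with r hr
    exact mem_closedBall_self (by simpa using le_of_lt hr))
  obtain ⟨V, hxV, hV⟩ := hV x
  obtain ⟨R, hR, hRV⟩ := Metric.nhds_basis_closedBall.mem_iff.mp (hV.isOpen.mem_nhds hxV)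
  have h3 := (ENNReal.Tendsto.const_mul (a := ((D * B : ℝ≥0) : ℝ≥0∞)) h2
    (Or.inl one_ne_zero)).add_const 1
  rw [mul_one] at h3
  refine absurd (le_of_tendsto (b := ((D * B : ℝ≥0) : ℝ≥0∞)) h3 ?_)
    (not_le.mpr (ENNReal.lt_add_right ENNReal.coe_ne_top one_ne_zero))
  filter_upwards [Ioo_mem_nhdsGT hR] with r hr
  have a0 : m (closedBall x r) ≠ 0 := fun h =>
    ball_ne_zero hD hm x hr.1 (measure_mono_null ball_subset_closedBall h)
  have a1 : m (closedBall x r) ≠ ∞ := measure_closedBall_lt_top.ne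
  have a2 : m (closedBall x r) ≤ (D * B : ℝ≥0) * m (closedBall x r ∩ E) := by
    refine (measure_mono (closedBall_subset_ball (show r < 2 * r by linarith [hr.1]))).trans
      ((hD x r hr.1).trans ?_)
    push_cast
    rw [mul_assoc, inter_comm]
    exact mul_le_mul' le_rfl ((hB V hV x hxE.1 r hr.1
      ((closedBall_subset_closedBall hr.2.le).trans hRV)).trans (mul_le_mul' le_rfl
        (measure_mono (inter_subset_inter_right _ ball_subset_closedBall))))
  simp only [id]
  rw [← ENNReal.mul_le_mul_iff_left a0 a1, add_mul, mul_assoc, ENNReal.div_mul_cancel a0 a1,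
    one_mul]
  refine (add_le_add le_rfl a2).trans (le_of_eq ?_)
  rw [← mul_add, add_comm, inter_comm Eᶜ, ← sdiff_eq, measure_inter_add_sdiff _ hE.measurableSet]

end Pool.Agent.Lib.MP_2a341d_an
end
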