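import Mathlib
import Pool.Agent.Lib.MP_2a341d_an.Null

/-! The zero extension is bounded on `BV` once the boundary is null. -/

namespace Pool.Agent.Lib.MP_2a341d_an

open MeasureTheory Metric Set Filter Topology
open scoped ENNReal NNReal

set_option linter.unusedSectionVars false

variable {X : Type*} [MetricSpace X] [MeasurableSpace X] [BorelSpace X] [ProperSpace X]
  {m : Measure X} [IsLocallyFiniteMeasure m] {K : ℝ≥0} {E V S : Set X} {f : X → ℝ}

/-- The Sobolev-type energy. -/
noncomputable def en (m : Measure X) (E : Set X) (f : X → ℝ) : ℝ≥0∞ :=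
  ∫⁻ x in E, lipa f x ∂m + ∫⁻ x in E, ‖f x‖ₑ ∂m

theorem lintegral_lipa_mul_le {θ : X → ℝ} {L : ℝ≥0} (hθ : Good θ) (h1 : ∀ x, ‖θ x‖ₑ ≤ 1)
    (hL : ∀ x, lipa θ x ≤ L) (hf : Good f) :
    ∫⁻ x in E, lipa (fun y => θ y * f y) x ∂m ≤ (1 + L) * en m E f := by
  rw [en, ← lintegral_add_left (measurable_lipa f), ← lintegral_const_mul' _ _ (by simp)]
  refine lintegral_mono fun x => (lipa_mul_le (hθ.ne_top x) (hf.ne_top x)).trans ?_
  rw [mul_add]
  refine add_le_add (mul_le_mul' ((h1 x).trans le_self_add) le_rfl) ?_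
  rw [mul_comm]
  exact mul_le_mul' ((hL x).trans le_add_self) le_rfl

theorem en_mul_le {θ : X → ℝ} {L : ℝ≥0} (hθ : Good θ) (h1 : ∀ x, ‖θ x‖ₑ ≤ 1)
    (hL : ∀ x, lipa θ x ≤ L) (hf : Good f) :
    en m E (fun y => θ y * f y) ≤ (2 + L) * en m E f := by
  have : ∫⁻ x in E, ‖θ x * f x‖ₑ ∂m ≤ en m E f := by
    refine le_trans (lintegral_mono fun x => ?_) le_add_self
    rw [enorm_mul]
    exact mul_le_of_le_one_left' (h1 x)
  calc _ ≤ (1 + L) * en m E f + en m E f :=
        add_le_add (lintegral_lipa_mul_le hθ h1 hL hf) this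
    _ = _ := by ring

theorem ap_of_support (hK : K ≠ 0) (hE : LocData m K E V) (hf : Good f) (hS : IsCompact S)
    (hSV : S ⊆ V) (h0 : ∀ x, x ∉ S → f x = 0) :
    Ap m (E.indicator f) univ (2 * (K + 2) * ∫⁻ x in E, lipa f x ∂m) := by
  have l1 : LipschitzWith 1 fun y : ℝ => max y 0 := LipschitzWith.id.max_const 0
  have l2 : LipschitzWith 1 fun y : ℝ => max (-y) 0 := LipschitzWith.id.neg.max_const 0
  have key : ∀ φ : ℝ → ℝ, LipschitzWith 1 φ → (∀ y, 0 ≤ φ y) → φ 0 = 0 →
      Ap m (E.indicator fun x => φ (f x)) univ ((K + 2) * ∫⁻ x in E, lipa f x ∂m) := by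
    intro φ h1 h2 h3
    refine (ap_of_bump hK hE (S := S) ⟨hf.comp h1, fun x => h2 _, hS, hSV, fun x hx => ?_⟩).mono
      (mul_le_mul' le_rfl (lintegral_mono fun x => ?_))
    · rw [h0 x hx, h3]
    · simpa using lipa_comp_le h1 (hf.ne_top x)
  have a1 := key _ l1 (fun y => le_max_right _ _) (by simp)
  have a2 := (key _ l2 (fun y => le_max_right _ _) (by simp)).neg isOpen_univ
  have a3 := a1.add isOpen_univ
    ((hf.comp l2).continuous.measurable.indicator hE.meas).neg a2
  have : E.indicator f = fun x => E.indicator (fun x => max (f x) 0) x +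
      -E.indicator (fun x => max (-f x) 0) x := by
    funext x
    by_cases hx : x ∈ E
    · simp only [indicator_of_mem hx]
      rcases le_total (f x) 0 with h | h
      · rw [max_eq_right h, max_eq_left (by linarith)]; ring
      · rw [max_eq_left h, max_eq_right (by linarith)]; ring
    · simp [indicator_of_notMem hx]
  rw [this]
  exact a3.mono (le_of_eq (by ring))

theorem ap_of_cover (hK : K ≠ 0) (hE : MeasurableSet E) (r : X → ℝ) (W : X → Set X)
    (T : Finset X) (hT : ∀ x ∈ T, 0 < r x ∧ closedBall x (2 * r x) ⊆ W x ∧ LocData m K E (W x)) :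
    ∃ C : ℝ≥0, ∀ f : X → ℝ, Good f → (∀ y ∈ E, (∀ x ∈ T, y ∉ ball x (r x)) → f y = 0) →
      Ap m (E.indicator f) univ (C * en m E f) := by
  classical
  induction T using Finset.induction_on with
  | empty =>
    refine ⟨0, fun f _ h => ?_⟩
    have : E.indicator f = fun _ => 0 := by
      funext y
      by_cases hy : y ∈ E
      · rw [indicator_of_mem hy, h y hy (by simp)]
      · rw [indicator_of_notMem hy]
    rw [this]
    exact Ap.zero.mono zero_le
  | insert x T hx ih =>
    obtain ⟨C, hC⟩ := ih fun y hy => hT y (Finset.mem_insert_of_mem hy)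
    obtain ⟨hr, hW, hD⟩ := hT x (Finset.mem_insert_self _ _)
    lift r x to ℝ≥0 using hr.le with ρ hρ
    have hρ0 : (0 : ℝ) < ρ := hr
    set θ : X → ℝ := fun y => clamp 1 (2 - dist y x / ρ) with hθ
    have hθL : LipschitzWith ρ⁻¹ θ := by
      have : LipschitzWith ρ⁻¹ fun y : X => 2 - dist y x / ρ := by
        refine LipschitzWith.of_dist_le_mul fun y z => ?_
        rw [Real.dist_eq, show 2 - dist y x / ρ - (2 - dist z x / ρ) =
          -((dist y x - dist z x) / ρ) by ring, abs_neg, abs_div, abs_of_pos hρ0, NNReal.coe_inv,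
          div_eq_inv_mul]
        exact mul_le_mul_of_nonneg_left (abs_dist_sub_le _ _ _) (by positivity)
      have h := (lipschitz_clamp 1).comp this
      rw [one_mul] at h
      exact h
    have hθL' : LipschitzWith ρ⁻¹ fun y => 1 - θ y := by
      have h := (LipschitzWith.const (α := X) (1 : ℝ)).sub hθL
      rw [zero_add] at h
      exact h
    have b0 : ∀ y, 0 ≤ θ y := fun y => clamp_nonneg _ _
    have b1 : ∀ y, θ y ≤ 1 := fun y => clamp_le zero_le_one _
    have c1 : ∀ y, |θ y| ≤ 1 := fun y => abs_le.mpr ⟨by linarith [b0 y], b1 y⟩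
    have c2 : ∀ y, |1 - θ y| ≤ 1 := fun y => abs_le.mpr ⟨by linarith [b1 y], by linarith [b0 y]⟩
    have en1 : ∀ a : ℝ, |a| ≤ 1 → ‖a‖ₑ ≤ 1 := fun a ha => by
      rwa [← ofReal_norm, ENNReal.ofReal_le_one, Real.norm_eq_abs]
    have g1 := good_of_lipschitz hθL c1
    have g2 := good_of_lipschitz hθL' c2
    refine ⟨2 * (K + 2) * (1 + ρ⁻¹) + C * (2 + ρ⁻¹), fun f hf h0 => ?_⟩
    have a1 := ap_of_support hK hD (g1.mul hf) (isCompact_closedBall x (2 * ρ)) hW (fun y hy => by
      have h1 : 2 * (ρ : ℝ) < dist y x := by simpa using hy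
      have : θ y = 0 := clamp_of_nonpos (by rw [sub_nonpos, le_div_iff₀ hρ0]; exact h1.le)
      rw [this, zero_mul])
    have a2 := hC _ (g2.mul hf) (fun y hy h => by
      by_cases hyx : y ∈ ball x ρ
      · have h1 : dist y x < ρ := hyx
        have : θ y = 1 := clamp_of_ge zero_le_one (by
          have : dist y x / ρ ≤ 1 := by rw [div_le_one hρ0]; exact h1.le
          linarith)
        rw [this, sub_self, zero_mul]
      · rw [h0 y hy fun z hz => ?_, mul_zero]
        rcases Finset.mem_insert.mp hz with rfl | hz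
        · rwa [← hρ]
        · exact h z hz)
    have a3 := a1.add isOpen_univ ((g2.mul hf).continuous.measurable.indicator hE) a2
    have : E.indicator f = fun y => E.indicator (fun y => θ y * f y) y +
        E.indicator (fun y => (1 - θ y) * f y) y := by
      funext y
      by_cases hy : y ∈ E
      · simp only [indicator_of_mem hy]; ring
      · simp [indicator_of_notMem hy]
    rw [this]
    refine a3.mono ?_
    push_cast
    rw [add_mul, mul_assoc (2 * (K + 2 : ℝ≥0∞)), mul_assoc (C : ℝ≥0∞)]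
    exact add_le_add
      (mul_le_mul' le_rfl (lintegral_lipa_mul_le g1 (fun y => en1 _ (c1 y))
        (fun y => lipa_le univ_mem hθL.lipschitzOnWith) hf))
      (mul_le_mul' le_rfl (en_mul_le g2 (fun y => en1 _ (c2 y))
        (fun y => lipa_le univ_mem hθL'.lipschitzOnWith) hf))

theorem ap_of_compact (hK : K ≠ 0) (hE : MeasurableSet E) (hc : IsCompact (closure E))
    (hD : ∀ x, ∃ V, x ∈ V ∧ LocData m K E V) :
    ∃ C : ℝ≥0, ∀ f : X → ℝ, Good f → Ap m (E.indicator f) univ (C * en m E f) := by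
  choose W hW hD using hD
  have : ∀ x, ∃ r, 0 < r ∧ closedBall x (2 * r) ⊆ W x := fun x => by
    obtain ⟨r, hr, h⟩ := Metric.nhds_basis_closedBall.mem_iff.mp ((hD x).isOpen.mem_nhds (hW x))
    exact ⟨r / 2, half_pos hr, by rwa [mul_div_cancel₀ _ two_ne_zero]⟩
  choose r hr hrW using this
  obtain ⟨T, -, hT⟩ := hc.elim_nhds_subcover (fun x => ball x (r x))
    fun x _ => ball_mem_nhds x (hr x)
  obtain ⟨C, hC⟩ := ap_of_cover hK hE r W T fun x _ => ⟨hr x, hrW x, hD x⟩
  refine ⟨C, fun f hf => hC f hf fun y hy h => ?_⟩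
  obtain ⟨x, hx, h1⟩ := mem_iUnion₂.mp (hT (subset_closure hy))
  exact absurd h1 (h x hx)

theorem isBVExtensionSet_closure (hK : K ≠ 0) (hE : IsOpen E) (hc : IsCompact (closure E))
    (hD : ∀ x, ∃ V, x ∈ V ∧ LocData m K E V) (h0 : m (closure E \ E) = 0) :
    IsBVExtensionSet m (closure E) := by
  obtain ⟨C, hC⟩ := ap_of_compact hK hE.measurableSet hc hD
  have hm : MeasurableSet (closure E) := isClosed_closure.measurableSet
  refine ⟨hm, C + 1, fun f hf => ?_⟩
  have hint : ∫⁻ x in closure E, ‖f x‖ₑ ∂m ≠ ∞ := hf.1.2.ne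
  have hFm : AEMeasurable ((closure E).indicator f) m :=
    (aemeasurable_indicator_iff hm).mpr hf.1.1.aemeasurable
  have key : tvOpen m ((closure E).indicator f) univ ≤ C * bvNorm m (closure E) f := by
    refine le_mul_of_forall_pos fun e he => Ap.tvOpen_le (Ap.limit fun e' he' => ?_)
    have he2 : (0 : ℝ≥0) < e / 2 := by positivity
    have h1 := ENNReal.lt_add_right hf.2.ne
      (show ((e / 2 : ℝ≥0) : ℝ≥0∞) ≠ 0 by exact_mod_cast he2.ne')
    nth_rw 1 [tv] at h1
    simp only [iInf_lt_iff] at h1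
    obtain ⟨A, -, hA, h1⟩ := h1
    obtain ⟨g, h2, h3, h4⟩ := exists_of_tvOpen_lt h1 hc hA (lt_min he2 he')
    rw [Measure.restrict_restrict hm, inter_self] at h3
    obtain ⟨g', -, h5, h6⟩ := exists_good_extension hc hA h2
    have hgm : AEMeasurable g (m.restrict (closure E)) :=
      (h2.mono hA).continuousOn.aemeasurable hm
    refine ⟨E.indicator g', ?_, ?_, (hC g' h5).mono (le_add_right (mul_le_mul' le_rfl ?_))⟩
    · rw [Measure.restrict_univ]
      exact (h5.continuous.measurable.indicator hE.measurableSet).aemeasurable.sub hFm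
    · rw [Measure.restrict_univ]
      refine le_trans ?_ (h3.trans (by exact_mod_cast min_le_right _ _))
      rw [← lintegral_indicator hm]
      refine lintegral_mono_ae ?_
      filter_upwards [measure_eq_zero_iff_ae_notMem.mp h0] with x hx
      by_cases hxE : x ∈ E
      · rw [indicator_of_mem hxE, indicator_of_mem (subset_closure hxE),
          indicator_of_mem (subset_closure hxE), h6 (subset_closure hxE)]
      · have : x ∉ closure E := fun h => hx ⟨h, hxE⟩
        simp [indicator_of_notMem hxE, indicator_of_notMem this]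
    · have b1 : ∫⁻ x in E, lipa g' x ∂m ≤ tv (m.restrict (closure E)) f (closure E) +
          ((e / 2 : ℝ≥0) : ℝ≥0∞) := by
        refine le_trans ?_ h4.le
        rw [setLIntegral_congr_fun hE.measurableSet (g := lipa g) fun x hx =>
          lipa_congr (mem_of_superset (hE.mem_nhds hx) fun y hy => (h6 (subset_closure hy)).symm)]
        refine lintegral_mono' ?_ le_rfl
        calc m.restrict E = (m.restrict (closure E)).restrict E := by
              rw [Measure.restrict_restrict hE.measurableSet, inter_eq_left.mpr subset_closure]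
          _ ≤ _ := Measure.restrict_mono (subset_closure.trans hA) le_rfl
      have b2 : ∫⁻ x in E, ‖g' x‖ₑ ∂m ≤ ((e / 2 : ℝ≥0) : ℝ≥0∞) + ∫⁻ x in closure E, ‖f x‖ₑ ∂m := by
        refine (lintegral_mono_set subset_closure).trans ?_
        rw [setLIntegral_congr_fun hm (g := fun x => ‖g x - 0‖ₑ) fun x hx => by
          simp [h6 hx]]
        refine (lintegral_enorm_sub_le (g := f) (by simpa using hf.1.1.aemeasurable)).trans ?_
        simp only [sub_zero]
        exact add_le_add (h3.trans (by exact_mod_cast min_le_left _ _)) le_rfl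
      refine (add_le_add b1 b2).trans (le_of_eq ?_)
      rw [bvNorm]
      nth_rw 3 [← add_halves e]
      push_cast
      ring
  have hL : ∫⁻ x in univ, ‖(closure E).indicator f x‖ₑ ∂m = ∫⁻ x in closure E, ‖f x‖ₑ ∂m := by
    rw [Measure.restrict_univ, ← lintegral_indicator hm]
    refine lintegral_congr fun x => ?_
    by_cases hx : x ∈ closure E <;> simp [hx]
  have hfin : bvNorm m (closure E) f ≠ ∞ := ENNReal.add_ne_top.mpr ⟨hint, hf.2.ne⟩
  refine ⟨(closure E).indicator f, ⟨?_, ?_⟩, ?_, ?_⟩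
  · rw [Measure.restrict_univ]
    exact (integrable_indicator_iff hm).mpr hf.1
  · rw [Measure.restrict_univ, tv_eq_tvOpen isOpen_univ]
    exact key.trans_lt (ENNReal.mul_lt_top ENNReal.coe_lt_top hfin.lt_top)
  · exact indicator_ae_eq_restrict hm
  · nth_rw 1 [bvNorm]
    rw [hL, Measure.restrict_univ, tv_eq_tvOpen isOpen_univ]
    push_cast
    rw [add_mul, one_mul, add_comm]
    exact add_le_add key le_self_add

end Pool.Agent.Lib.MP_2a341d_an
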